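import Pool.Agent.Lib.MP_b23666_gt.Cone

set_option autoImplicit false

open MeasureTheory Set

namespace Pool.Agent.MP_b23666_gt

noncomputable section

lemma jac_nonneg {r : ℝ} (hr : 0 < r) (t : ℝ) : 0 ≤ jac r t := by
  unfold jac; positivity

lemma jac_neg (r t : ℝ) : jac r (-t) = jac r t := by
  unfold jac; rw [neg_sq]

lemma jac_continuous {r : ℝ} (hr : 0 < r) : Continuous (jac r) := by
  unfold jac
  refine Continuous.div (by fun_prop) (by fun_prop) ?_
  intro t; positivity

lemma jac_zero {r t : ℝ} (h : r ^ 2 - 1 ≤ t ^ 2) : jac r t = 0 := by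
  unfold jac
  rw [Real.sqrt_eq_zero_of_nonpos (by linarith)]; simp

lemma jac_integrable {r : ℝ} (hr : 0 < r) : Integrable (jac r) := by
  apply (jac_continuous hr).integrable_of_hasCompactSupport
  apply HasCompactSupport.intro (K := Icc (-r) r) isCompact_Icc
  intro t ht
  apply jac_zero
  rw [mem_Icc, ← abs_le, not_le] at ht
  nlinarith [sq_abs t, abs_nonneg t]

/-- The substitution turning the density into `gg`. -/
lemma jac_eq_G {r : ℝ} (hr : 0 < r) (t : ℝ) :
    ∫ s in (0:ℝ)..t, jac r s = 1 / 3 * G (r ^ 2) (r * t / √(1 + t ^ 2)) := by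
  have h := intervalIntegral.integral_comp_mul_deriv (a := 0) (b := t)
    (f := fun s => r * s / √(1 + s ^ 2)) (f' := fun s => r / ((1 + s ^ 2) * √(1 + s ^ 2)))
    (g := fun τ => gg (r ^ 2 - τ ^ 2)) ?_ ?_ ?_
  · unfold G
    have e0 : r * 0 / √(1 + (0:ℝ) ^ 2) = 0 := by simp
    simp only [e0] at h
    rw [← h, ← intervalIntegral.integral_const_mul]
    apply intervalIntegral.integral_congr
    intro s _
    simp only [Function.comp]
    have hs : 0 < 1 + s ^ 2 := by positivity
    have hq : 0 < √(1 + s ^ 2) := Real.sqrt_pos.mpr hs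
    have hq2 : √(1 + s ^ 2) ^ 2 = 1 + s ^ 2 := Real.sq_sqrt hs.le
    have e1 : r ^ 2 - (r * s / √(1 + s ^ 2)) ^ 2 = r ^ 2 / (1 + s ^ 2) := by
      rw [div_pow, hq2]; field_simp; ring
    rw [e1]
    rcases le_total (r ^ 2) (1 + s ^ 2) with h1 | h1
    · rw [jac_zero (by linarith), gg_of_le_one (by rw [div_le_one hs]; exact h1)]
      simp
    · rw [gg_of_one_le (by rw [le_div_iff₀ hs]; linarith)]
      have e2 : r ^ 2 / (1 + s ^ 2) - 1 = (r ^ 2 - 1 - s ^ 2) / (1 + s ^ 2) := by
        field_simp; ring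
      rw [e2, Real.sqrt_div' _ hs.le]
      unfold jac
      set A := √(r ^ 2 - 1 - s ^ 2)
      set q := √(1 + s ^ 2)
      rw [← hq2]
      field_simp
  · intro s _
    have hs : 0 < 1 + s ^ 2 := by positivity
    have hq : 0 < √(1 + s ^ 2) := Real.sqrt_pos.mpr hs
    have hq2 : √(1 + s ^ 2) ^ 2 = 1 + s ^ 2 := Real.sq_sqrt hs.le
    have h1 : HasDerivAt (fun s : ℝ => 1 + s ^ 2) (2 * s) s := by
      simpa using (hasDerivAt_pow 2 s).const_add 1
    have h2 := h1.sqrt hs.ne'
    have h3 : HasDerivAt (fun s : ℝ => r * s) r s := by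
      simpa using (hasDerivAt_id s).const_mul r
    have h4 := h3.div h2 hq.ne'
    have h5 : (r * √(1 + s ^ 2) - r * s * (2 * s / (2 * √(1 + s ^ 2)))) / √(1 + s ^ 2) ^ 2 =
        r / ((1 + s ^ 2) * √(1 + s ^ 2)) := by
      field_simp
      rw [hq2]; ring
    rw [← h5]
    exact h4
  · apply Continuous.continuousOn
    refine Continuous.div (by fun_prop) (by fun_prop) ?_
    intro x
    have : 0 < 1 + x ^ 2 := by positivity
    have := Real.sqrt_pos.mpr this
    positivity
  · exact gg_continuous.comp (by fun_prop)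

lemma G_const {ρ σ σ' : ℝ} (h0 : 0 ≤ σ) (h : σ ≤ σ') (h1 : ρ - 1 ≤ σ ^ 2) : G ρ σ = G ρ σ' := by
  unfold G
  rw [← intervalIntegral.integral_add_adjacent_intervals (gg_int ρ 0 σ) (gg_int ρ σ σ')]
  have : ∫ x in σ..σ', gg (ρ - x ^ 2) = ∫ x in σ..σ', (0:ℝ) := by
    apply intervalIntegral.integral_congr
    intro x hx
    rw [uIcc_of_le h] at hx
    simp only
    apply gg_of_le_one
    nlinarith [hx.1]
  rw [this]; simp

lemma jac_total {r R : ℝ} (hr : 0 < r) (hR : r ≤ R) :
    ∫ s in (0:ℝ)..R, jac r s = 1 / 3 * G (r ^ 2) r := by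
  rw [jac_eq_G hr]
  have hRpos : 0 < R := lt_of_lt_of_le hr hR
  have hs : 0 < 1 + R ^ 2 := by positivity
  have hq : 0 < √(1 + R ^ 2) := Real.sqrt_pos.mpr hs
  have hq2 : √(1 + R ^ 2) ^ 2 = 1 + R ^ 2 := Real.sq_sqrt hs.le
  rw [G_const (σ := r * R / √(1 + R ^ 2)) (σ' := r) (by positivity)]
  · rw [div_le_iff₀ hq]
    apply mul_le_mul_of_nonneg_left _ hr.le
    apply Real.le_sqrt_of_sq_le; linarith
  · rw [div_pow, hq2, le_div_iff₀ hs]
    nlinarith

lemma jac_odd {r : ℝ} (t : ℝ) : ∫ s in (0:ℝ)..(-t), jac r s = - ∫ s in (0:ℝ)..t, jac r s := by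
  have := intervalIntegral.integral_comp_neg (f := jac r) (a := 0) (b := t)
  simp only [neg_zero, jac_neg] at this
  rw [this, intervalIntegral.integral_symm]

lemma frac_sqrt {r T0 T1 : ℝ} (h1 : 0 < T1) (hT : T0 ^ 2 + T1 ^ 2 = 1) :
    r * (T0 / T1) / √(1 + (T0 / T1) ^ 2) = r * T0 := by
  have e : 1 + (T0 / T1) ^ 2 = (1 / T1) ^ 2 := by
    field_simp; linarith
  rw [e, Real.sqrt_sq (by positivity)]
  field_simp

lemma setInt_pos {r c : ℝ} (hr : 0 < r) :
    ∫ t in Ioi c, jac r t = 1 / 3 * G (r ^ 2) r - ∫ s in (0:ℝ)..c, jac r s := by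
  have hR : c ≤ max r c := le_max_right _ _
  have h1 : ∫ t in Ioi c, jac r t = ∫ t in Ioc c (max r c), jac r t := by
    apply setIntegral_eq_of_subset_of_forall_sdiff_eq_zero measurableSet_Ioi Ioc_subset_Ioi_self
    intro t ht
    apply jac_zero
    have h2 : max r c < t := by
      by_contra h3
      exact ht.2 ⟨ht.1, not_lt.mp h3⟩
    have h3 : r < t := lt_of_le_of_lt (le_max_left _ _) h2
    nlinarith
  rw [h1, ← intervalIntegral.integral_of_le hR, ← jac_total hr (le_max_left r c)]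
  rw [intervalIntegral.integral_interval_sub_left] <;>
  exact (jac_continuous hr).intervalIntegrable _ _

lemma setInt_neg {r c : ℝ} (hr : 0 < r) :
    ∫ t in Iio c, jac r t = 1 / 3 * G (r ^ 2) r + ∫ s in (0:ℝ)..c, jac r s := by
  have h1 : ∫ t in Iio c, jac r t = ∫ t in Ioi (-c), jac r t := by
    rw [← integral_Iic_eq_integral_Iio, ← integral_comp_neg_Iic]
    simp only [jac_neg]
  rw [h1, setInt_pos hr, jac_odd]
  ring

lemma cone_volume3 {r : ℝ} (hr : 0 < r) {T0 T1 : ℝ} (hT : T0 ^ 2 + T1 ^ 2 = 1) :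
    volume (coneSet r T0 T1) = ENNReal.ofReal (1 / 3 * (G (r ^ 2) r + G (r ^ 2) (r * T0))) := by
  rw [cone_volume2 hr, ← ofReal_integral_eq_lintegral_ofReal (jac_integrable hr).integrableOn
    (by filter_upwards with t using jac_nonneg hr t)]
  congr 1
  rcases lt_trichotomy T1 0 with h | h | h
  · have e : {t : ℝ | 0 < T0 + T1 * t} = Iio (T0 / (-T1)) := by
      ext t
      rw [mem_Iio, lt_div_iff₀ (by linarith), mem_ofPred_eq]
      constructor <;> intro h <;> linarith
    rw [e, setInt_neg hr, jac_eq_G hr, frac_sqrt (by linarith) (by rw [neg_sq]; exact hT)]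
    ring
  · subst h
    have h2 : T0 = 1 ∨ T0 = -1 := by
      have : (T0 - 1) * (T0 + 1) = 0 := by nlinarith
      rcases mul_eq_zero.mp this with h | h
      · left; linarith
      · right; linarith
    rcases h2 with rfl | rfl
    · have e : {t : ℝ | 0 < (1:ℝ) + 0 * t} = univ := by
        ext t; simp
      rw [e, setIntegral_univ]
      have h3 := intervalIntegral.integral_Iic_add_Ioi (b := (0:ℝ)) (f := jac r)
        (jac_integrable hr).integrableOn (jac_integrable hr).integrableOn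
      rw [← h3, integral_Iic_eq_integral_Iio, setInt_pos hr, setInt_neg hr]
      simp
      ring
    · have e : {t : ℝ | 0 < (-1:ℝ) + 0 * t} = ∅ := by
        ext t; simp
      rw [e, show r * -1 = -r by ring, G_neg]
      simp
  · have e : {t : ℝ | 0 < T0 + T1 * t} = Ioi (-(T0 / T1)) := by
      ext t
      rw [mem_Ioi, ← neg_div, div_lt_iff₀ h, mem_ofPred_eq]
      constructor <;> intro h <;> linarith
    rw [e, setInt_pos hr, jac_odd, jac_eq_G hr, frac_sqrt h hT]
    ring

end

end Pool.Agent.MP_b23666_gt
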