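import Mathlib

/-!
# Piecewise linear curves parametrised on `[0, 1]`
-/

set_option autoImplicit false

open Set

namespace Pool.Agent.MP_b23666_gt.Upper

/-- Clamping to `[0, 1]`. -/
noncomputable def cl (x : ℝ) : ℝ := max 0 (min x 1)

theorem cl_of_le {x : ℝ} (h : x ≤ 0) : cl x = 0 := by
  unfold cl
  exact max_eq_left ((min_le_left _ _).trans h)

theorem cl_of_ge {x : ℝ} (h : 1 ≤ x) : cl x = 1 := by
  unfold cl
  rw [min_eq_right h]
  exact max_eq_right zero_le_one

theorem cl_of_mem {x : ℝ} (h0 : 0 ≤ x) (h1 : x ≤ 1) : cl x = x := by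
  unfold cl
  rw [min_eq_left h1, max_eq_right h0]

theorem cl_mono {x y : ℝ} (h : x ≤ y) : cl x ≤ cl y := by
  unfold cl
  exact max_le_max_left _ (min_le_min_right _ h)

theorem cl_cont : Continuous cl := by unfold cl; fun_prop

variable {F : Type*} [NormedAddCommGroup F] [NormedSpace ℝ F]

/-- The polygon through `P 0, ..., P N` on `[0, 1]`. -/
noncomputable def poly (P : ℕ → F) (N : ℕ) (t : ℝ) : F :=
  P 0 + ∑ i ∈ Finset.range N, cl (N * t - i) • (P (i + 1) - P i)

theorem poly_cont (P : ℕ → F) (N : ℕ) : Continuous (poly P N) := by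
  unfold poly
  refine continuous_const.add (continuous_finsetSum _ fun i _ => ?_)
  exact (cl_cont.comp (by fun_prop)).smul continuous_const

theorem poly_seg (P : ℕ → F) {N j : ℕ} (hj : j < N) {t : ℝ} (h0 : (j : ℝ) ≤ N * t)
    (h1 : N * t ≤ j + 1) : poly P N t = P j + (N * t - j) • (P (j + 1) - P j) := by
  unfold poly
  have e1 : ∀ i ∈ Finset.range N, cl (N * t - i) • (P (i + 1) - P i) =
      (if i < j then (P (i + 1) - P i) else 0) +
        (if i = j then (N * t - j) • (P (j + 1) - P j) else 0) := by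
    intro i _
    rcases lt_trichotomy i j with h | h | h
    · rw [if_pos h, if_neg h.ne, add_zero, cl_of_ge, one_smul]
      have : (i : ℝ) + 1 ≤ j := by exact_mod_cast h
      linarith
    · subst h
      rw [if_neg (lt_irrefl _), if_pos rfl, zero_add, cl_of_mem (by linarith) (by linarith)]
    · rw [if_neg h.not_gt, if_neg h.ne', add_zero, cl_of_le, zero_smul]
      have : (j : ℝ) + 1 ≤ i := by exact_mod_cast h
      linarith
  rw [Finset.sum_congr rfl e1, Finset.sum_add_distrib, Finset.sum_ite_eq' (Finset.range N) j,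
    if_pos (Finset.mem_range.mpr hj), ← Finset.sum_filter]
  have e2 : (Finset.range N).filter (fun i => i < j) = Finset.range j := by
    ext i
    simp only [Finset.mem_filter, Finset.mem_range]
    constructor
    · exact fun h => h.2
    · exact fun h => ⟨h.trans hj, h⟩
  rw [e2, Finset.sum_range_sub]
  abel

theorem poly_vertex (P : ℕ → F) {N j : ℕ} (hj : j ≤ N) (hN : 0 < N) :
    ∃ t ∈ Icc (0 : ℝ) 1, poly P N t = P j := by
  have hN' : (0 : ℝ) < N := by exact_mod_cast hN
  refine ⟨j / N, ⟨by positivity, ?_⟩, ?_⟩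
  · rw [div_le_one hN']; exact_mod_cast hj
  · have e : (N : ℝ) * (j / N) = j := by field_simp
    rcases hj.lt_or_eq with h | h
    · rw [poly_seg P h (t := j / N) (by rw [e]) (by rw [e]; linarith), e, sub_self, zero_smul,
        add_zero]
    · subst h
      obtain ⟨k, rfl⟩ : ∃ k, j = k + 1 := ⟨j - 1, by omega⟩
      rw [poly_seg P (Nat.lt_succ_self k) (by rw [e]; push_cast; linarith)
        (by rw [e]; push_cast; linarith), e]
      push_cast
      rw [add_sub_cancel_left, one_smul]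
      abel

/-- Every point of the polygon is on a segment. -/
theorem poly_mem (P : ℕ → F) {N : ℕ} (hN : 0 < N) {t : ℝ} (ht : t ∈ Icc (0 : ℝ) 1) :
    ∃ j < N, ∃ s ∈ Icc (0 : ℝ) 1, poly P N t = P j + s • (P (j + 1) - P j) := by
  have hN' : (0 : ℝ) < N := by exact_mod_cast hN
  have h0 : 0 ≤ N * t := mul_nonneg hN'.le ht.1
  have h1 : N * t ≤ N := by nlinarith [ht.2]
  rcases h1.lt_or_eq with h | h
  · have hf : ⌊(N : ℝ) * t⌋₊ < N := (Nat.floor_lt h0).mpr h
    have a1 := Nat.floor_le h0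
    have a2 := (Nat.lt_floor_add_one ((N : ℝ) * t)).le
    exact ⟨_, hf, N * t - ⌊(N : ℝ) * t⌋₊, ⟨by linarith, by linarith⟩, poly_seg P hf a1 a2⟩
  · obtain ⟨k, rfl⟩ : ∃ k, N = k + 1 := ⟨N - 1, by omega⟩
    have e : ((k + 1 : ℕ) : ℝ) * t - k = 1 := by rw [h]; push_cast; ring
    refine ⟨k, Nat.lt_succ_self k, 1, by simp, ?_⟩
    rw [poly_seg P (Nat.lt_succ_self k) (by rw [h]; push_cast; linarith)
      (by rw [h]; push_cast; linarith), e]

theorem poly_dist (P : ℕ → F) (N : ℕ) {t t' : ℝ} (h : t ≤ t') :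
    dist (poly P N t) (poly P N t') ≤
      (∑ i ∈ Finset.range N, cl (N * t' - i) * ‖P (i + 1) - P i‖) -
        ∑ i ∈ Finset.range N, cl (N * t - i) * ‖P (i + 1) - P i‖ := by
  rw [dist_comm, dist_eq_norm]
  unfold poly
  rw [add_sub_add_left_eq_sub, ← Finset.sum_sub_distrib, ← Finset.sum_sub_distrib]
  refine (norm_sum_le _ _).trans (Finset.sum_le_sum fun i _ => ?_)
  rw [← sub_smul, norm_smul, Real.norm_of_nonneg, sub_mul]
  have : cl (N * t - i) ≤ cl (N * t' - i) :=
    cl_mono (by gcongr)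
  linarith

theorem poly_var (P : ℕ → F) (N : ℕ) :
    eVariationOn (poly P N) (Icc 0 1) ≤
      ENNReal.ofReal (∑ i ∈ Finset.range N, ‖P (i + 1) - P i‖) := by
  set G : ℝ → ℝ := fun t => ∑ i ∈ Finset.range N, cl (N * t - i) * ‖P (i + 1) - P i‖ with hG
  have hG0 : ∀ t, 0 ≤ t → 0 ≤ G t := by
    intro t _
    refine Finset.sum_nonneg fun i _ => mul_nonneg ?_ (norm_nonneg _)
    unfold cl
    exact le_max_left _ _
  have hG1 : ∀ t, G t ≤ ∑ i ∈ Finset.range N, ‖P (i + 1) - P i‖ := by
    intro t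
    refine Finset.sum_le_sum fun i _ => ?_
    have : cl (N * t - i) ≤ 1 := by
      unfold cl
      exact max_le zero_le_one (min_le_right _ _)
    nlinarith [norm_nonneg (P (i + 1) - P i)]
  unfold eVariationOn
  refine iSup_le ?_
  rintro ⟨n, u, hu, hm⟩
  have h1 : ∀ k ∈ Finset.range n, edist (poly P N (u (k + 1))) (poly P N (u k)) ≤
      ENNReal.ofReal (G (u (k + 1)) - G (u k)) := by
    intro k _
    rw [edist_comm, edist_dist]
    exact ENNReal.ofReal_le_ofReal (poly_dist P N (hu (Nat.le_succ k)))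
  refine (Finset.sum_le_sum h1).trans ?_
  rw [← ENNReal.ofReal_sum_of_nonneg]
  · refine ENNReal.ofReal_le_ofReal ?_
    rw [Finset.sum_range_sub (fun k => G (u k)) n]
    have := hG0 (u 0) (hm 0).1
    have := hG1 (u n)
    linarith
  · intro k _
    have := poly_dist P N (hu (Nat.le_succ k))
    exact dist_nonneg.trans this

end Pool.Agent.MP_b23666_gt.Upper
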