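import Pool.Agent.Lib.MP_b23666_gt.Star
import Pool.Agent.Lib.MP_b23666_gt.PLCurve

/-!
# The certificate for a polygonal inspection curve of the unit sphere
-/

set_option autoImplicit false

open Set

namespace Pool.Agent.MP_b23666_gt.Upper

open V

/-- Lookup tree. -/
inductive T where
  | leaf : V → T
  | node : ℕ → T → T → T

/-- `node p l r`: indices `< p` are in `l`, the others in `r`. -/
def T.get : T → ℕ → V
  | T.leaf v, _ => v
  | T.node p l r, n => bif Nat.blt n p then l.get n else r.get n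

/-- The check at vertex `i` with the list `l` of its neighbours. -/
def vcheck (S : ℤ) (pt : ℕ → V) (M i : ℕ) (l : List ℕ) : Bool :=
  (decide (i + 1 = M) || decide (l.head? = some (i + 1))) && l.all (fun j => Nat.blt j M) &&
    star S (pt i) (l.map fun j => sub (pt j) (pt i))

def checkAll (S : ℤ) (pt : ℕ → V) (M : ℕ) : ℕ → List (List ℕ) → Bool
  | i, [] => decide (i = M)
  | i, l :: r => vcheck S pt M i l && checkAll S pt M (i + 1) r

theorem checkAll_spec {S : ℤ} {pt : ℕ → V} {M : ℕ} :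
    ∀ (nb : List (List ℕ)) (i0 : ℕ), checkAll S pt M i0 nb = true → ∀ i, i0 ≤ i → i < M →
      ∃ l, vcheck S pt M i l = true := by
  intro nb
  induction nb with
  | nil =>
    intro i0 h i h1 h2
    unfold checkAll at h
    rw [decide_eq_true_eq] at h
    omega
  | cons l r ih =>
    intro i0 h i h1 h2
    unfold checkAll at h
    rw [Bool.and_eq_true] at h
    rcases h1.eq_or_lt with h3 | h3
    · subst h3
      exact ⟨l, h.1⟩
    · exact ih (i0 + 1) h.2 i h3 h2

theorem vcheck_spec {S : ℤ} (hS : 0 ≤ S) {pt : ℕ → V} {M i : ℕ} {l : List ℕ}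
    (h : vcheck S pt M i l = true) {u : EuclideanSpace ℝ (Fin 3)}
    (hu : ∀ j < M, inner ℝ (E (pt j)) u ≤ inner ℝ (E (pt i)) u) :
    (S : ℝ) * ‖u‖ ≤ inner ℝ (E (pt i)) u := by
  unfold vcheck at h
  rw [Bool.and_eq_true, Bool.and_eq_true] at h
  refine star_spec hS h.2 ?_
  intro e he
  rw [List.mem_map] at he
  obtain ⟨j, hj, rfl⟩ := he
  rw [E_sub, inner_sub_left]
  have h2 := h.1.2
  rw [List.all_eq_true] at h2
  have h3 : j < M := by
    have := h2 j hj
    rwa [Nat.blt_eq] at this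
  linarith [hu j h3]

theorem vcheck_edge {S : ℤ} {pt : ℕ → V} {M i : ℕ} {l : List ℕ}
    (h : vcheck S pt M i l = true) (hi : i + 1 < M) :
    ∃ n : V, good S (pt i) n = true ∧ inner ℝ (E n) (E (pt (i + 1)) - E (pt i)) = 0 := by
  unfold vcheck at h
  rw [Bool.and_eq_true, Bool.and_eq_true, Bool.or_eq_true, decide_eq_true_eq,
    decide_eq_true_eq] at h
  obtain ⟨⟨h1, _⟩, h3⟩ := h
  rcases h1 with h1 | h1
  · omega
  · match l, h1, h3 with
    | a :: r, h1, h3 =>
      have : a = i + 1 := by simpa using h1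
      subst this
      rw [List.map_cons] at h3
      obtain ⟨e2, he2⟩ := star_head h3
      refine ⟨_, he2, ?_⟩
      rw [← E_sub]
      exact inner_cross_left _ _

/-- The real polygon. -/
noncomputable def RP (S : ℤ) (pt : ℕ → V) (i : ℕ) : EuclideanSpace ℝ (Fin 3) :=
  ((S : ℝ)⁻¹) • E (pt i)

theorem cert_sees {S : ℤ} (hS : 0 < S) {pt : ℕ → V} {N : ℕ} (hN : 0 < N) {nb : List (List ℕ)}
    (h : checkAll S pt (N + 1) 0 nb = true) {x : EuclideanSpace ℝ (Fin 3)} (hx : ‖x‖ = 1) :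
    ∃ t ∈ Icc (0 : ℝ) 1, 1 ≤ inner ℝ (poly (RP S pt) N t) x := by
  obtain ⟨i, hi, hm⟩ := Finset.exists_max_image (Finset.range (N + 1))
    (fun i => inner ℝ (E (pt i)) x) ⟨0, by simp⟩
  rw [Finset.mem_range] at hi
  obtain ⟨l, hl⟩ := checkAll_spec nb 0 h i (Nat.zero_le _) hi
  have h1 := vcheck_spec hS.le hl (u := x) (fun j hj => hm j (Finset.mem_range.mpr hj))
  obtain ⟨t, ht, e⟩ := poly_vertex (RP S pt) (Nat.lt_succ_iff.mp hi) hN
  refine ⟨t, ht, ?_⟩
  rw [e]
  unfold RP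
  rw [real_inner_smul_left]
  have hS' : (0 : ℝ) < S := by exact_mod_cast hS
  rw [hx, mul_one] at h1
  rw [← div_eq_inv_mul, le_div_iff₀ hS', one_mul]
  exact h1

theorem cert_outside {S : ℤ} (hS : 0 < S) {pt : ℕ → V} {N : ℕ} (hN : 0 < N)
    {nb : List (List ℕ)} (h : checkAll S pt (N + 1) 0 nb = true) {t : ℝ}
    (ht : t ∈ Icc (0 : ℝ) 1) : 1 ≤ ‖poly (RP S pt) N t‖ := by
  obtain ⟨j, hj, s, hs, e⟩ := poly_mem (RP S pt) hN ht
  obtain ⟨l, hl⟩ := checkAll_spec nb 0 h j (Nat.zero_le _) (by omega)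
  obtain ⟨n, hn, h0⟩ := vcheck_edge hl (by omega)
  obtain ⟨g1, g2⟩ := good_spec hS.le hn
  have hS' : (0 : ℝ) < S := by exact_mod_cast hS
  rw [e]
  have h1 : inner ℝ (E n) (RP S pt j + s • (RP S pt (j + 1) - RP S pt j)) =
      (S : ℝ)⁻¹ * inner ℝ (E n) (E (pt j)) := by
    unfold RP
    rw [← smul_sub, inner_add_right, real_inner_smul_right, real_inner_smul_right,
      real_inner_smul_right, h0]
    ring
  have h2 := real_inner_le_norm (E n) (RP S pt j + s • (RP S pt (j + 1) - RP S pt j))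
  rw [h1] at h2
  have h3 : ‖E n‖ ≤ (S : ℝ)⁻¹ * inner ℝ (E n) (E (pt j)) := by
    rw [← div_eq_inv_mul, le_div_iff₀ hS']
    linarith
  have h4 : 0 < ‖E n‖ := by
    rw [norm_pos_iff]
    intro h5
    rw [h5, inner_zero_left] at g1
    exact lt_irrefl _ g1
  have h5 := h3.trans h2
  exact le_of_mul_le_mul_left (by linarith) h4

/-- The check of the lengths. -/
def lenAll (pt : ℕ → V) : ℕ → List ℕ → Bool
  | _, [] => true
  | i, s :: r => decide (dot (sub (pt (i + 1)) (pt i)) (sub (pt (i + 1)) (pt i)) ≤ (s : ℤ) * s) &&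
      lenAll pt (i + 1) r

theorem lenAll_spec {S : ℤ} (hS : 0 < S) {pt : ℕ → V} :
    ∀ (ls : List ℕ) (i0 : ℕ), lenAll pt i0 ls = true →
      ∑ i ∈ Finset.range ls.length, ‖RP S pt (i0 + i + 1) - RP S pt (i0 + i)‖ ≤
        (ls.sum : ℝ) / S := by
  have hS' : (0 : ℝ) < S := by exact_mod_cast hS
  intro ls
  induction ls with
  | nil => intro i0 _; simp
  | cons s r ih =>
    intro i0 h
    unfold lenAll at h
    rw [Bool.and_eq_true, decide_eq_true_eq] at h
    rw [List.length_cons, Finset.sum_range_succ']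
    have h2 := ih (i0 + 1) h.2
    have e : ∀ i ∈ Finset.range r.length, ‖RP S pt (i0 + (i + 1) + 1) - RP S pt (i0 + (i + 1))‖ =
        ‖RP S pt (i0 + 1 + i + 1) - RP S pt (i0 + 1 + i)‖ := by
      intro i _
      rw [show i0 + (i + 1) = i0 + 1 + i by ring]
    rw [Finset.sum_congr rfl e]
    have h3 : ‖RP S pt (i0 + 0 + 1) - RP S pt (i0 + 0)‖ ≤ (s : ℝ) / S := by
      rw [add_zero]
      unfold RP
      rw [← smul_sub, norm_smul, Real.norm_of_nonneg (by positivity), ← div_eq_inv_mul]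
      refine div_le_div_of_nonneg_right ?_ hS'.le
      rw [← E_sub]
      refine le_of_sq_le_sq ?_ (by positivity)
      rw [normsq_E, sq]
      exact_mod_cast h.1
    rw [List.sum_cons, Nat.cast_add, add_div]
    linarith

theorem cert_len {S : ℤ} (hS : 0 < S) {pt : ℕ → V} {N : ℕ} {ls : List ℕ}
    (h : lenAll pt 0 ls = true) (hl : ls.length = N) :
    eVariationOn (poly (RP S pt) N) (Icc 0 1) ≤ ENNReal.ofReal ((ls.sum : ℝ) / S) := by
  refine (poly_var _ _).trans (ENNReal.ofReal_le_ofReal ?_)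
  subst hl
  have := lenAll_spec hS ls 0 h
  simpa using this

end Pool.Agent.MP_b23666_gt.Upper
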