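import Pool.Agent.Lib.MP_b23666_gt.GG

set_option autoImplicit false

open MeasureTheory Set

namespace Pool.Agent.MP_b23666_gt

noncomputable section

/-- The numerical data of a polygonal chain with `n` edges: `ρ i` squared norm of the `i`-th
vertex, `a i`, `b i` the inner products of the direction of the `i`-th edge with its endpoints. -/
structure Chain (n : ℕ) (ρ a b : ℕ → ℝ) : Prop where
  npos : 0 < n
  le : ∀ i < n, a i ≤ b i
  nonneg : ∀ i < n, 0 ≤ ρ i - a i ^ 2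
  same : ∀ i < n, ρ (i + 1) - b i ^ 2 = ρ i - a i ^ 2
  start : a 0 ≤ 0
  stop : 0 ≤ b (n - 1)
  conv : ∀ i, i + 1 < n → a (i + 1) ≤ b i

lemma Chain.exists_foot {n : ℕ} {ρ a b : ℕ → ℝ} (h : Chain n ρ a b) :
    ∃ j < n, a j ≤ 0 ∧ 0 ≤ b j ∧ ∀ i < n, ρ j - a j ^ 2 ≤ ρ i - a i ^ 2 := by
  have hP : ∀ i, i < n → 0 < a i → ∃ j < n, a j ≤ 0 ∧ 0 ≤ b j ∧ ρ j - a j ^ 2 ≤ ρ i - a i ^ 2 := by
    intro i
    induction i with
    | zero => intro _ h1; exact absurd h1 (not_lt.mpr h.start)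
    | succ i ih =>
      intro hi h1
      have hb : a (i + 1) ≤ b i := h.conv i hi
      have hs := h.same i (by omega)
      have hle : ρ i - a i ^ 2 ≤ ρ (i + 1) - a (i + 1) ^ 2 := by
        rw [← hs]; nlinarith
      by_cases ha : 0 < a i
      · obtain ⟨j, hj, h2, h3, h4⟩ := ih (by omega) ha
        exact ⟨j, hj, h2, h3, h4.trans hle⟩
      · exact ⟨i, by omega, not_lt.mp ha, by linarith, hle⟩
  have hQ : ∀ d i, i + d + 1 = n → b i < 0 →
      ∃ j < n, a j ≤ 0 ∧ 0 ≤ b j ∧ ρ j - a j ^ 2 ≤ ρ i - a i ^ 2 := by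
    intro d
    induction d with
    | zero =>
      intro i hi h1
      have : i = n - 1 := by omega
      subst this
      exact absurd h1 (not_lt.mpr h.stop)
    | succ d ih =>
      intro i hi h1
      have hb : a (i + 1) ≤ b i := h.conv i (by omega)
      have hs := h.same i (by omega)
      have hle : ρ (i + 1) - a (i + 1) ^ 2 ≤ ρ i - a i ^ 2 := by
        rw [← hs]; nlinarith
      by_cases hb' : b (i + 1) < 0
      · obtain ⟨j, hj, h2, h3, h4⟩ := ih (i + 1) (by omega) hb'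
        exact ⟨j, hj, h2, h3, h4.trans hle⟩
      · exact ⟨i + 1, by omega, by linarith, not_lt.mp hb', hle⟩
  obtain ⟨i, hi, hmin⟩ := Finset.exists_min_image (Finset.range n) (fun i => ρ i - a i ^ 2)
    ⟨0, Finset.mem_range.mpr h.npos⟩
  rw [Finset.mem_range] at hi
  have hmin' : ∀ k < n, ρ i - a i ^ 2 ≤ ρ k - a k ^ 2 := fun k hk =>
    hmin k (Finset.mem_range.mpr hk)
  by_cases ha : 0 < a i
  · obtain ⟨j, hj, h2, h3, h4⟩ := hP i hi ha
    exact ⟨j, hj, h2, h3, fun k hk => h4.trans (hmin' k hk)⟩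
  · by_cases hb : b i < 0
    · obtain ⟨j, hj, h2, h3, h4⟩ := hQ (n - 1 - i) i (by omega) hb
      exact ⟨j, hj, h2, h3, fun k hk => h4.trans (hmin' k hk)⟩
    · exact ⟨i, hi, not_lt.mp ha, not_lt.mp hb, hmin'⟩

/-- Edge inequality. -/
lemma edge_ineq {ζ c a b : ℝ} (hζ : 2 ≤ ζ) (hc : 0 ≤ c) (hab : a ≤ b) :
    |Phi ζ (c + b ^ 2) - Phi ζ (c + a ^ 2)| ≤ Psi ζ (c + b ^ 2) b - Psi ζ (c + a ^ 2) a := by
  rcases le_total 0 a with ha | ha
  · have h1 := tail_mono hζ hc ha hab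
    have h2 : Phi ζ (c + a ^ 2) ≤ Phi ζ (c + b ^ 2) := Phi_mono hζ (by nlinarith)
    rw [abs_of_nonneg (by linarith)]
    linarith
  · rcases le_total b 0 with hb | hb
    · have h1 := tail_mono hζ hc (a := -b) (b := -a) (by linarith) (by linarith)
      have h2 : Phi ζ (c + b ^ 2) ≤ Phi ζ (c + a ^ 2) := Phi_mono hζ (by nlinarith)
      rw [neg_sq, neg_sq, Psi_neg, Psi_neg] at h1
      rw [abs_of_nonpos (by linarith)]
      linarith
    · have h1 := tail_mono hζ hc le_rfl hb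
      have h2 := tail_mono hζ hc (a := 0) (b := -a) le_rfl (by linarith)
      rw [neg_sq, Psi_neg] at h2
      have e : Psi ζ (c + 0 ^ 2) 0 = 0 := by unfold Psi; simp
      rw [e] at h1 h2
      have h3 : Phi ζ (c + 0 ^ 2) ≤ Phi ζ (c + a ^ 2) := Phi_mono hζ (by nlinarith)
      have h4 : Phi ζ (c + 0 ^ 2) ≤ Phi ζ (c + b ^ 2) := Phi_mono hζ (by nlinarith)
      rw [abs_le]
      constructor <;> linarith

lemma edge_foot {ζ c a b : ℝ} (hζ : 2 ≤ ζ) (hc : 0 ≤ c) (hcζ : c ≤ ζ) (ha : a ≤ 0) (hb : 0 ≤ b) :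
    Phi ζ (c + b ^ 2) + Phi ζ (c + a ^ 2) = Psi ζ (c + b ^ 2) b - Psi ζ (c + a ^ 2) a := by
  have h1 := Psi_eq_Phi hζ hc hcζ hb
  have h2 := Psi_eq_Phi hζ hc hcζ (s := -a) (by linarith)
  rw [neg_sq, Psi_neg] at h2
  linarith

/-- The vertex function. -/
def EE (ζ ρ σ : ℝ) : ℝ := σ - Psi ζ ρ σ - G ρ σ / gg ζ

lemma EE_zero (ζ ρ : ℝ) : EE ζ ρ 0 = 0 := by
  unfold EE Psi G; simp

lemma EE_mono {ζ ρ z0 x y : ℝ} (hζ : 2 ≤ ζ) (hz : ∀ z, z0 ≤ z → gg z ≤ gg (max z ζ))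
    (hx : z0 ≤ ρ - x ^ 2) (hy : z0 ≤ ρ - y ^ 2) (hxy : x ≤ y) : EE ζ ρ x ≤ EE ζ ρ y := by
  have hg := gg_pos (z := ζ) (by linarith)
  have e : EE ζ ρ y - EE ζ ρ x = ∫ τ in x..y, (1 - kk ζ (ρ - τ ^ 2) - gg (ρ - τ ^ 2) / gg ζ) := by
    rw [intervalIntegral.integral_sub (by
        exact (intervalIntegrable_const).sub (kk_int _ _ _ _)) ((gg_int _ _ _).div_const _),
      intervalIntegral.integral_sub intervalIntegrable_const (kk_int _ _ _ _),
      intervalIntegral.integral_div, intervalIntegral.integral_const]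
    unfold EE Psi G
    rw [← intervalIntegral.integral_interval_sub_left (kk_int ζ ρ 0 y) (kk_int ζ ρ 0 x),
      ← intervalIntegral.integral_interval_sub_left (gg_int ρ 0 y) (gg_int ρ 0 x)]
    simp only [smul_eq_mul, mul_one]
    ring
  have : 0 ≤ EE ζ ρ y - EE ζ ρ x := by
    rw [e]
    apply intervalIntegral.integral_nonneg hxy
    intro τ hτ
    have h1 : z0 ≤ ρ - τ ^ 2 := by
      rcases le_total 0 τ with h0 | h0
      · nlinarith [hτ.2]
      · nlinarith [hτ.1]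
    have h2 := hz _ h1
    unfold kk
    have h3 : gg (ρ - τ ^ 2) / gg ζ ≤ gg (max (ρ - τ ^ 2) ζ) / gg ζ :=
      div_le_div_of_nonneg_right h2 hg.le
    linarith
  linarith

lemma Chain.sum_EE {n : ℕ} {ρ a b : ℕ → ℝ} (h : Chain n ρ a b) {ζ z0 : ℝ} (hζ : 2 ≤ ζ)
    (hz : ∀ z, z0 ≤ z → gg z ≤ gg (max z ζ)) (hc : ∀ i < n, z0 ≤ ρ i - a i ^ 2) :
    0 ≤ ∑ i ∈ Finset.range n, (EE ζ (ρ (i + 1)) (b i) - EE ζ (ρ i) (a i)) := by
  have key : ∀ m, m < n →
      EE ζ (ρ (m + 1)) (b m) ≤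
        ∑ i ∈ Finset.range (m + 1), (EE ζ (ρ (i + 1)) (b i) - EE ζ (ρ i) (a i)) := by
    intro m
    induction m with
    | zero =>
      intro hm
      have h1 : EE ζ (ρ 0) (a 0) ≤ EE ζ (ρ 0) 0 := by
        refine EE_mono hζ hz (hc 0 hm) ?_ h.start
        have := hc 0 hm
        nlinarith [sq_nonneg (a 0)]
      rw [EE_zero] at h1
      simp only [zero_add, Finset.sum_range_one]
      linarith
    | succ m ih =>
      intro hm
      rw [Finset.sum_range_succ]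
      have h1 := ih (by omega)
      have h2 : EE ζ (ρ (m + 1)) (a (m + 1)) ≤ EE ζ (ρ (m + 1)) (b m) := by
        refine EE_mono hζ hz (hc (m + 1) hm) ?_ (h.conv m hm)
        rw [h.same m (by omega)]
        exact hc m (by omega)
      linarith
  have hn := h.npos
  have h1 := key (n - 1) (by omega)
  have h2 : 0 ≤ EE ζ (ρ (n - 1 + 1)) (b (n - 1)) := by
    rw [← EE_zero ζ (ρ (n - 1 + 1))]
    have h3 : z0 ≤ ρ (n - 1 + 1) - b (n - 1) ^ 2 := by
      rw [h.same (n - 1) (by omega)]; exact hc (n - 1) (by omega)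
    refine EE_mono hζ hz ?_ h3 h.stop
    nlinarith [sq_nonneg (b (n - 1))]
  have e : n - 1 + 1 = n := by omega
  rw [e] at h1 h2
  linarith

lemma Chain.sum_Psi {n : ℕ} {ρ a b : ℕ → ℝ} (h : Chain n ρ a b) {ζ : ℝ} (hζ : 2 ≤ ζ) {j : ℕ}
    (hj : j < n) (haj : a j ≤ 0) (hbj : 0 ≤ b j) (hcj : ρ j - a j ^ 2 ≤ ζ) :
    Phi ζ (ρ 0) + Phi ζ (ρ n) ≤
      ∑ i ∈ Finset.range n, (Psi ζ (ρ (i + 1)) (b i) - Psi ζ (ρ i) (a i)) := by
  have hedge : ∀ i < n, |Phi ζ (ρ (i + 1)) - Phi ζ (ρ i)| ≤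
      Psi ζ (ρ (i + 1)) (b i) - Psi ζ (ρ i) (a i) := by
    intro i hi
    have h1 := edge_ineq (ζ := ζ) hζ (h.nonneg i hi) (h.le i hi)
    have e1 : ρ i - a i ^ 2 + b i ^ 2 = ρ (i + 1) := by have := h.same i hi; linarith
    have e2 : ρ i - a i ^ 2 + a i ^ 2 = ρ i := by ring
    rwa [e1, e2] at h1
  have hfoot : Phi ζ (ρ (j + 1)) + Phi ζ (ρ j) = Psi ζ (ρ (j + 1)) (b j) - Psi ζ (ρ j) (a j) := by
    have h1 := edge_foot (ζ := ζ) hζ (h.nonneg j hj) hcj haj hbj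
    have e1 : ρ j - a j ^ 2 + b j ^ 2 = ρ (j + 1) := by have := h.same j hj; linarith
    have e2 : ρ j - a j ^ 2 + a j ^ 2 = ρ j := by ring
    rwa [e1, e2] at h1
  have hA : ∀ m, m ≤ j → Phi ζ (ρ 0) - Phi ζ (ρ m) ≤
      ∑ i ∈ Finset.range m, (Psi ζ (ρ (i + 1)) (b i) - Psi ζ (ρ i) (a i)) := by
    intro m
    induction m with
    | zero => intro _; simp
    | succ m ih =>
      intro hm
      rw [Finset.sum_range_succ]
      have h1 := ih (by omega)
      have h2 := hedge m (by omega)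
      have h3 := neg_abs_le (Phi ζ (ρ (m + 1)) - Phi ζ (ρ m))
      linarith
  have hB : ∀ d, j + 1 + d ≤ n → Phi ζ (ρ 0) + Phi ζ (ρ (j + 1 + d)) ≤
      ∑ i ∈ Finset.range (j + 1 + d), (Psi ζ (ρ (i + 1)) (b i) - Psi ζ (ρ i) (a i)) := by
    intro d
    induction d with
    | zero =>
      intro _
      rw [add_zero, Finset.sum_range_succ]
      have h1 := hA j le_rfl
      linarith
    | succ d ih =>
      intro hm
      rw [← add_assoc, Finset.sum_range_succ]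
      have h1 := ih (by omega)
      have h2 := hedge (j + 1 + d) (by omega)
      have h3 := le_abs_self (Phi ζ (ρ (j + 1 + d + 1)) - Phi ζ (ρ (j + 1 + d)))
      linarith
  have := hB (n - (j + 1)) (by omega)
  have e : j + 1 + (n - (j + 1)) = n := by omega
  rwa [e] at this

/-- The end function. -/
def YY (ρ : ℝ) : ℝ := 2 * Real.pi + Phi 2 ρ - G ρ (√ρ)

lemma Phi_compare {ζ ρ : ℝ} (hζ : 2 ≤ ζ) :
    (1 - 1 / gg ζ) * G ρ (√ρ) ≤ Phi ζ ρ - Phi 2 ρ := by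
  have hg := gg_pos (z := ζ) (by linarith)
  unfold Phi Psi G
  rw [← intervalIntegral.integral_sub (kk_int _ _ _ _) (kk_int _ _ _ _),
    ← intervalIntegral.integral_const_mul]
  apply intervalIntegral.integral_mono_on (Real.sqrt_nonneg _)
    ((gg_int _ _ _).const_mul _) ((kk_int _ _ _ _).sub (kk_int _ _ _ _))
  intro τ _
  set z := ρ - τ ^ 2
  have h1 : 1 ≤ 1 / gg ζ := by
    rw [le_div_iff₀ hg]; linarith [gg_le_one ζ]
  unfold kk
  rw [gg_two, div_one]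
  have e1 : gg (max z ζ) / gg ζ = gg (max z ζ) * (1 / gg ζ) := by ring
  rw [e1]
  have hz0 := gg_nonneg z
  rcases le_total z 2 with h2 | h2
  · rw [max_eq_right h2, max_eq_right (h2.trans hζ), gg_two]
    have : gg ζ * (1 / gg ζ) = 1 := by field_simp
    nlinarith
  · rcases le_total z ζ with h3 | h3
    · rw [max_eq_left h2, max_eq_right h3]
      have : gg ζ * (1 / gg ζ) = 1 := by field_simp
      have h4 := gg_antitone h2 h3
      have h5 : 1 ≤ gg z * (1 / gg ζ) :=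
        this.symm.le.trans (mul_le_mul_of_nonneg_right h4 (by positivity))
      nlinarith
    · rw [max_eq_left h2, max_eq_left h3]
      nlinarith

/-- The main inequality for chains. -/
theorem Chain.main {n : ℕ} {ρ a b : ℕ → ℝ} (h : Chain n ρ a b)
    (hG0 : G (ρ 0) (√(ρ 0)) ≤ Real.pi) (hGn : G (ρ n) (√(ρ n)) ≤ Real.pi)
    (hH : 4 * Real.pi ≤ ∑ i ∈ Finset.range n, (G (ρ (i + 1)) (b i) - G (ρ i) (a i)) +
      G (ρ 0) (√(ρ 0)) + G (ρ n) (√(ρ n))) :
    YY (ρ 0) + YY (ρ n) ≤ ∑ i ∈ Finset.range n, (b i - a i) := by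
  obtain ⟨j, hj, haj, hbj, hmin⟩ := h.exists_foot
  set z0 := ρ j - a j ^ 2 with hz0
  set ζ := max 2 z0 with hζdef
  have hζ : 2 ≤ ζ := le_max_left _ _
  have hz : ∀ z, z0 ≤ z → gg z ≤ gg (max z ζ) := by
    intro z hzz
    rcases le_total ζ z with h1 | h1
    · rw [max_eq_left h1]
    · rw [max_eq_right h1]
      rcases le_total 2 z0 with h2 | h2
      · have h3 : ζ = z0 := max_eq_right h2
        have h4 : z = ζ := le_antisymm h1 (h3 ▸ hzz)
        rw [h4]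
      · have h3 : ζ = 2 := max_eq_left h2
        rw [h3, gg_two]; exact gg_le_one z
  have hg := gg_pos (z := ζ) (by linarith)
  have h1 := h.sum_EE hζ hz hmin
  have h2 := h.sum_Psi hζ hj haj hbj (le_max_right _ _)
  have h3 : ∑ i ∈ Finset.range n, (EE ζ (ρ (i + 1)) (b i) - EE ζ (ρ i) (a i)) =
      ∑ i ∈ Finset.range n, (b i - a i) -
      ∑ i ∈ Finset.range n, (Psi ζ (ρ (i + 1)) (b i) - Psi ζ (ρ i) (a i)) -
      (∑ i ∈ Finset.range n, (G (ρ (i + 1)) (b i) - G (ρ i) (a i))) / gg ζ := by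
    rw [Finset.sum_div, ← Finset.sum_sub_distrib, ← Finset.sum_sub_distrib]
    apply Finset.sum_congr rfl
    intro i _
    unfold EE
    ring
  rw [h3] at h1
  set S := ∑ i ∈ Finset.range n, (G (ρ (i + 1)) (b i) - G (ρ i) (a i)) with hS
  set lam := 1 / gg ζ with hlam
  have hlam1 : 1 ≤ lam := by
    rw [hlam, le_div_iff₀ hg]; linarith [gg_le_one ζ]
  have e1 : S / gg ζ = lam * S := by rw [hlam]; ring
  rw [e1] at h1
  have c0 := Phi_compare (ζ := ζ) (ρ := ρ 0) hζ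
  have cn := Phi_compare (ζ := ζ) (ρ := ρ n) hζ
  rw [← hlam] at c0 cn
  have h4 : lam * (4 * Real.pi) ≤ lam * (S + G (ρ 0) (√(ρ 0)) + G (ρ n) (√(ρ n))) :=
    mul_le_mul_of_nonneg_left hH (by linarith)
  unfold YY
  nlinarith [mul_nonneg (sub_nonneg.mpr hlam1) (sub_nonneg.mpr hG0),
    mul_nonneg (sub_nonneg.mpr hlam1) (sub_nonneg.mpr hGn)]

end

end Pool.Agent.MP_b23666_gt
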