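import Pool.Agent.Lib.MP_b23666_gt.GG

set_option autoImplicit false

open MeasureTheory Set
open scoped Pointwise

namespace Pool.Agent.MP_b23666_gt

noncomputable section

/-- `1 + t^2 + z^2`. -/
def ww (u : ℝ × ℝ) : ℝ := 1 + u.1 ^ 2 + u.2 ^ 2

lemma ww_pos (u : ℝ × ℝ) : 0 < ww u := by unfold ww; positivity

lemma ww_measurable : Measurable ww := by unfold ww; fun_prop

/-- The part of the unit ball over a half of a cap, in coordinates. -/
def coneSet (r T0 T1 : ℝ) : Set (ℝ × (ℝ × ℝ)) :=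
  {q | q.1 ^ 2 + q.2.1 ^ 2 + q.2.2 ^ 2 < 1 ∧ √(q.1 ^ 2 + q.2.1 ^ 2 + q.2.2 ^ 2) ≤ r * q.1 ∧
    0 < T0 * q.1 + T1 * q.2.1}

/-- The gnomonic image of the half cap. -/
def DD (r T0 T1 : ℝ) : Set (ℝ × ℝ) := {u | ww u ≤ r ^ 2 ∧ 0 < T0 + T1 * u.1}

lemma coneSet_measurable (r T0 T1 : ℝ) : MeasurableSet (coneSet r T0 T1) := by
  have h1 : MeasurableSet {q : ℝ × (ℝ × ℝ) | q.1 ^ 2 + q.2.1 ^ 2 + q.2.2 ^ 2 < 1} :=
    measurableSet_lt (by fun_prop) (by fun_prop)
  have h2 : MeasurableSet {q : ℝ × (ℝ × ℝ) | √(q.1 ^ 2 + q.2.1 ^ 2 + q.2.2 ^ 2) ≤ r * q.1} :=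
    measurableSet_le (by fun_prop) (by fun_prop)
  have h3 : MeasurableSet {q : ℝ × (ℝ × ℝ) | 0 < T0 * q.1 + T1 * q.2.1} :=
    measurableSet_lt (by fun_prop) (by fun_prop)
  exact h1.inter (h2.inter h3)

lemma DD_measurable (r T0 T1 : ℝ) : MeasurableSet (DD r T0 T1) := by
  have h1 : MeasurableSet {u : ℝ × ℝ | ww u ≤ r ^ 2} := measurableSet_le ww_measurable (by fun_prop)
  have h2 : MeasurableSet {u : ℝ × ℝ | 0 < T0 + T1 * u.1} := measurableSet_lt (by fun_prop) (by fun_prop)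
  exact h1.inter h2

/-- The domain in `ℝ × (ℝ × ℝ)` after rescaling. -/
def SS (r T0 T1 : ℝ) : Set (ℝ × (ℝ × ℝ)) := {q | 0 < q.1 ∧ q.2 ∈ DD r T0 T1 ∧ q.1 ^ 2 * ww q.2 < 1}

lemma SS_measurable (r T0 T1 : ℝ) : MeasurableSet (SS r T0 T1) := by
  have h1 : MeasurableSet {q : ℝ × (ℝ × ℝ) | 0 < q.1} := measurableSet_lt (by fun_prop) (by fun_prop)
  have h2 : MeasurableSet {q : ℝ × (ℝ × ℝ) | q.2 ∈ DD r T0 T1} :=
    (DD_measurable r T0 T1).preimage measurable_snd
  have h3 : MeasurableSet {q : ℝ × (ℝ × ℝ) | q.1 ^ 2 * ww q.2 < 1} :=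
    measurableSet_lt ((measurable_fst.pow_const 2).mul (ww_measurable.comp measurable_snd))
      measurable_const
  exact h1.inter (h2.inter h3)

def FF (r T0 T1 : ℝ) (q : ℝ × (ℝ × ℝ)) : ENNReal :=
  (SS r T0 T1).indicator (fun q => ENNReal.ofReal (q.1 ^ 2)) q

lemma FF_measurable (r T0 T1 : ℝ) : Measurable (FF r T0 T1) := by
  unfold FF
  exact Measurable.indicator (by fun_prop) (SS_measurable r T0 T1)

lemma slice_volume {r : ℝ} (hr : 0 ≤ r) (T0 T1 a : ℝ) :
    volume (Prod.mk a ⁻¹' coneSet r T0 T1) = ∫⁻ u, FF r T0 T1 (a, u) := by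
  rcases le_or_gt a 0 with ha | ha
  · have h1 : Prod.mk a ⁻¹' coneSet r T0 T1 = ∅ := by
      rw [eq_empty_iff_forall_notMem]
      rintro ⟨b, c⟩ ⟨_, h2, h3⟩
      simp only at h2 h3
      have h4 : √(a ^ 2 + b ^ 2 + c ^ 2) ≤ 0 := h2.trans (mul_nonpos_of_nonneg_of_nonpos hr ha)
      have h5 : √(a ^ 2 + b ^ 2 + c ^ 2) = 0 := le_antisymm h4 (Real.sqrt_nonneg _)
      rw [Real.sqrt_eq_zero (by positivity)] at h5
      have ha0 : a = 0 := by nlinarith [sq_nonneg a, sq_nonneg b, sq_nonneg c]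
      have hb0 : b = 0 := by nlinarith [sq_nonneg a, sq_nonneg b, sq_nonneg c]
      subst ha0; subst hb0
      simp at h3
    rw [h1, measure_empty]
    symm
    have h2 : ∀ u, FF r T0 T1 (a, u) = 0 := by
      intro u
      unfold FF
      rw [indicator_of_notMem]
      intro h
      exact absurd h.1 (not_lt.mpr ha)
    simp_rw [h2]
    exact lintegral_zero
  · have h1 : Prod.mk a ⁻¹' coneSet r T0 T1 = a • {u : ℝ × ℝ | u ∈ DD r T0 T1 ∧ a ^ 2 * ww u < 1} := by
      ext ⟨b, c⟩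
      rw [mem_smul_set_iff_inv_smul_mem₀ ha.ne']
      simp only [mem_preimage, coneSet, mem_ofPred_eq, DD, ww, Prod.smul_mk, smul_eq_mul]
      have e0 : a ^ 2 * (1 + (a⁻¹ * b) ^ 2 + (a⁻¹ * c) ^ 2) = a ^ 2 + b ^ 2 + c ^ 2 := by
        field_simp
      have e1 : √(a ^ 2 + b ^ 2 + c ^ 2) ≤ r * a ↔ 1 + (a⁻¹ * b) ^ 2 + (a⁻¹ * c) ^ 2 ≤ r ^ 2 := by
        rw [Real.sqrt_le_left (by positivity), ← e0, mul_pow r a 2, mul_comm (r ^ 2),
          mul_le_mul_iff_right₀ (by positivity)]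
      have e2 : (0 < T0 * a + T1 * b) ↔ (0 < T0 + T1 * (a⁻¹ * b)) := by
        have : T0 * a + T1 * b = a * (T0 + T1 * (a⁻¹ * b)) := by field_simp
        rw [this]
        exact mul_pos_iff_of_pos_left ha
      rw [e0, e1, e2]
      tauto
    rw [h1, Measure.addHaar_smul]
    have e3 : ENNReal.ofReal |a ^ Module.finrank ℝ (ℝ × ℝ)| = ENNReal.ofReal (a ^ 2) := by
      rw [Module.finrank_prod, Module.finrank_self, abs_of_nonneg (by positivity)]
    rw [e3]
    have e4 : ∀ u, FF r T0 T1 (a, u) =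
        {u : ℝ × ℝ | u ∈ DD r T0 T1 ∧ a ^ 2 * ww u < 1}.indicator (fun _ => ENNReal.ofReal (a ^ 2)) u := by
      intro u
      unfold FF
      by_cases hu : u ∈ DD r T0 T1 ∧ a ^ 2 * ww u < 1
      · rw [indicator_of_mem (by exact ⟨ha, hu⟩), indicator_of_mem (by exact hu)]
      · rw [indicator_of_notMem (by intro h; exact hu h.2), indicator_of_notMem (by exact hu)]
    simp_rw [e4]
    rw [lintegral_indicator_const]
    exact (DD_measurable r T0 T1).inter
      (measurableSet_lt ((measurable_const.mul ww_measurable)) measurable_const)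

lemma lint_sq {A : ℝ} (hA : 0 ≤ A) :
    ∫⁻ a in Ioo 0 A, ENNReal.ofReal (a ^ 2) = ENNReal.ofReal (A ^ 3 / 3) := by
  rw [← ofReal_integral_eq_lintegral_ofReal]
  · rw [← integral_Ioc_eq_integral_Ioo, ← intervalIntegral.integral_of_le hA, integral_pow]
    norm_num
  · have : IntegrableOn (fun a : ℝ => a ^ 2) (Ioc 0 A) := by
      rw [← intervalIntegrable_iff_integrableOn_Ioc_of_le hA]
      exact (continuous_pow 2).intervalIntegrable _ _
    exact this.mono_set Ioo_subset_Ioc_self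
  · filter_upwards with a
    positivity

lemma inner_u (r T0 T1 : ℝ) (u : ℝ × ℝ) :
    ∫⁻ a, FF r T0 T1 (a, u) =
      (DD r T0 T1).indicator (fun u => ENNReal.ofReal (1 / (3 * (ww u * √(ww u))))) u := by
  by_cases hu : u ∈ DD r T0 T1
  · rw [indicator_of_mem hu]
    have hw := ww_pos u
    have hs : 0 < √(ww u) := Real.sqrt_pos.mpr hw
    have e : ∀ a, FF r T0 T1 (a, u) = (Ioo 0 (1 / √(ww u))).indicator (fun a => ENNReal.ofReal (a ^ 2)) a := by
      intro a
      unfold FF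
      by_cases ha : a ∈ Ioo 0 (1 / √(ww u))
      · rw [indicator_of_mem ha, indicator_of_mem]
        refine ⟨ha.1, hu, ?_⟩
        have h1 : a * √(ww u) < 1 := by
          have := ha.2; rw [lt_div_iff₀ hs] at this; exact this
        have h2 : 0 ≤ a * √(ww u) := mul_nonneg ha.1.le hs.le
        have h3 : (a * √(ww u)) ^ 2 < 1 := by nlinarith
        rwa [mul_pow, Real.sq_sqrt hw.le] at h3
      · rw [indicator_of_notMem ha, indicator_of_notMem]
        rintro ⟨h1, _, h3⟩
        apply ha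
        refine ⟨h1, ?_⟩
        rw [lt_div_iff₀ hs]
        simp only at h1 h3
        have h4 : (a * √(ww u)) ^ 2 < 1 := by rw [mul_pow, Real.sq_sqrt hw.le]; exact h3
        nlinarith [mul_nonneg h1.le hs.le]
    simp_rw [e]
    rw [lintegral_indicator measurableSet_Ioo, lint_sq (by positivity)]
    congr 1
    have h5 : √(ww u) ^ 2 = ww u := Real.sq_sqrt hw.le
    field_simp
    rw [h5]
  · rw [indicator_of_notMem hu]
    have h2 : ∀ a, FF r T0 T1 (a, u) = 0 := by
      intro a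
      unfold FF
      rw [indicator_of_notMem]
      intro h
      exact hu h.2.1
    simp_rw [h2]
    exact lintegral_zero

lemma cone_volume1 {r : ℝ} (hr : 0 ≤ r) (T0 T1 : ℝ) :
    volume (coneSet r T0 T1) =
      ∫⁻ u in DD r T0 T1, ENNReal.ofReal (1 / (3 * (ww u * √(ww u)))) := by
  rw [Measure.volume_eq_prod, Measure.prod_apply (coneSet_measurable r T0 T1)]
  simp_rw [slice_volume hr T0 T1]
  rw [lintegral_lintegral_swap]
  · simp_rw [inner_u]
    rw [lintegral_indicator (DD_measurable r T0 T1)]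
  · exact (FF_measurable r T0 T1).aemeasurable

/-- The one dimensional density. -/
def jac (r t : ℝ) : ℝ := 2 / 3 * √(r ^ 2 - 1 - t ^ 2) / (r * (1 + t ^ 2))

lemma inner_z {r : ℝ} (hr : 0 < r) (t : ℝ) :
    ∫⁻ z in {z : ℝ | ww (t, z) ≤ r ^ 2}, ENNReal.ofReal (1 / (3 * (ww (t, z) * √(ww (t, z))))) =
      ENNReal.ofReal (jac r t) := by
  rcases lt_or_ge (r ^ 2 - 1 - t ^ 2) 0 with h | h
  · have e1 : {z : ℝ | ww (t, z) ≤ r ^ 2} = ∅ := by
      rw [eq_empty_iff_forall_notMem]
      intro z hz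
      simp only [ww, mem_ofPred_eq] at hz
      nlinarith [sq_nonneg z]
    rw [e1]
    simp only [Measure.restrict_empty, lintegral_zero_measure, jac]
    rw [Real.sqrt_eq_zero_of_nonpos h.le]
    simp
  · set Z := √(r ^ 2 - 1 - t ^ 2) with hZ
    have hZ0 : 0 ≤ Z := Real.sqrt_nonneg _
    have hZ2 : Z ^ 2 = r ^ 2 - 1 - t ^ 2 := Real.sq_sqrt h
    have e1 : {z : ℝ | ww (t, z) ≤ r ^ 2} = Icc (-Z) Z := by
      ext z
      simp only [ww, mem_ofPred_eq, mem_Icc]
      rw [← abs_le, ← abs_of_nonneg hZ0, ← sq_le_sq, hZ2]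
      constructor <;> intro h <;> linarith
    rw [e1]
    have hcont : Continuous (fun z : ℝ => 1 / (3 * (ww (t, z) * √(ww (t, z))))) := by
      refine Continuous.div continuous_const ?_ ?_
      · unfold ww; fun_prop
      · intro z
        have := ww_pos (t, z)
        have := Real.sqrt_pos.mpr this
        positivity
    rw [← ofReal_integral_eq_lintegral_ofReal]
    · rw [integral_Icc_eq_integral_Ioc, ← intervalIntegral.integral_of_le (by linarith)]
      congr 1
      have hm : 0 < 1 + t ^ 2 := by positivity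
      have hd : ∀ z ∈ uIcc (-Z) Z, HasDerivAt (fun z : ℝ => z / (3 * (1 + t ^ 2) * √(1 + t ^ 2 + z ^ 2)))
          (1 / (3 * (ww (t, z) * √(ww (t, z))))) z := by
        intro z _
        have hp : 0 < 1 + t ^ 2 + z ^ 2 := by positivity
        have hs : 0 < √(1 + t ^ 2 + z ^ 2) := Real.sqrt_pos.mpr hp
        have hs2 : √(1 + t ^ 2 + z ^ 2) ^ 2 = 1 + t ^ 2 + z ^ 2 := Real.sq_sqrt hp.le
        have h1 : HasDerivAt (fun z : ℝ => 1 + t ^ 2 + z ^ 2) (2 * z) z := by
          simpa using (hasDerivAt_pow 2 z).const_add (1 + t ^ 2)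
        have h2 := (h1.sqrt hp.ne').const_mul (3 * (1 + t ^ 2))
        have h3 := (hasDerivAt_id z).div h2 (by positivity)
        have h4 : (1 * (3 * (1 + t ^ 2) * √(1 + t ^ 2 + z ^ 2)) - z * (3 * (1 + t ^ 2) *
            (2 * z / (2 * √(1 + t ^ 2 + z ^ 2))))) / (3 * (1 + t ^ 2) * √(1 + t ^ 2 + z ^ 2)) ^ 2 =
            1 / (3 * (ww (t, z) * √(ww (t, z)))) := by
          unfold ww
          simp only
          field_simp
          rw [hs2]
          ring
        rw [← h4]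
        exact h3
      rw [intervalIntegral.integral_eq_sub_of_hasDerivAt hd (hcont.intervalIntegrable _ _)]
      have e2 : √(1 + t ^ 2 + Z ^ 2) = r := by
        rw [hZ2, show 1 + t ^ 2 + (r ^ 2 - 1 - t ^ 2) = r ^ 2 by ring, Real.sqrt_sq hr.le]
      have e3 : √(1 + t ^ 2 + (-Z) ^ 2) = r := by rw [neg_sq]; exact e2
      rw [e2, e3, jac, ← hZ]
      field_simp
      ring
    · exact (hcont.continuousOn).integrableOn_Icc
    · filter_upwards with z
      have := ww_pos (t, z)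
      positivity

lemma cone_volume2 {r : ℝ} (hr : 0 < r) (T0 T1 : ℝ) :
    volume (coneSet r T0 T1) = ∫⁻ t in {t : ℝ | 0 < T0 + T1 * t}, ENNReal.ofReal (jac r t) := by
  have hA : MeasurableSet {t : ℝ | 0 < T0 + T1 * t} := measurableSet_lt (by fun_prop) (by fun_prop)
  rw [cone_volume1 hr.le, ← lintegral_indicator (DD_measurable r T0 T1), Measure.volume_eq_prod,
    lintegral_prod, ← lintegral_indicator hA]
  · apply lintegral_congr
    intro t
    by_cases ht : t ∈ {t : ℝ | 0 < T0 + T1 * t}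
    · rw [indicator_of_mem ht, ← inner_z hr t, ← lintegral_indicator]
      · apply lintegral_congr
        intro z
        by_cases hz : z ∈ {z : ℝ | ww (t, z) ≤ r ^ 2}
        · rw [indicator_of_mem hz, indicator_of_mem]
          exact ⟨hz, ht⟩
        · rw [indicator_of_notMem hz, indicator_of_notMem]
          intro h; exact hz h.1
      · exact measurableSet_le (ww_measurable.comp (by fun_prop)) measurable_const
    · rw [indicator_of_notMem ht]
      have h2 : ∀ z, (DD r T0 T1).indicator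
          (fun u => ENNReal.ofReal (1 / (3 * (ww u * √(ww u))))) (t, z) = 0 := by
        intro z
        rw [indicator_of_notMem]
        intro h; exact ht h.2
      calc _ = ∫⁻ _ : ℝ, (0 : ENNReal) := lintegral_congr h2
        _ = 0 := lintegral_zero
  · refine (Measurable.indicator ?_ (DD_measurable r T0 T1)).aemeasurable
    have := ww_measurable
    fun_prop

end

end Pool.Agent.MP_b23666_gt
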