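import Pool.Agent.Lib.MP_b23666_gt.Space

set_option autoImplicit false

open MeasureTheory Set
open scoped RealInnerProductSpace

namespace Pool.Agent.MP_b23666_gt

noncomputable section

lemma G_mono {ρ a b : ℝ} (h : a ≤ b) : G ρ a ≤ G ρ b := by
  have : 0 ≤ G ρ b - G ρ a := by
    unfold G
    rw [intervalIntegral.integral_interval_sub_left (gg_int _ _ _) (gg_int _ _ _)]
    exact intervalIntegral.integral_nonneg h (fun _ _ => gg_nonneg _)
  linarith

lemma inner_T_le {x T : E3} (hT : ‖T‖ = 1) : |⟪T, x⟫| ≤ ‖x‖ := by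
  have := abs_real_inner_le_norm T x
  rwa [hT, one_mul] at this

/-- real indicator of the half cap -/
def pchi (x T : E3) (p : E3) : ℝ := (capPart x T).indicator 1 p

/-- real indicator of the cap -/
def chi (x : E3) (p : E3) : ℝ := (cap x).indicator 1 p

lemma finite_of_subset_ball {s : Set E3} (hs : s ⊆ Metric.ball 0 1) : volume s ≠ ⊤ :=
  ((measure_mono hs).trans_lt measure_ball_lt_top).ne

lemma capPart_subset (x T : E3) : capPart x T ⊆ Metric.ball 0 1 := by
  rintro p ⟨h, _⟩; simpa using h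

lemma cap_subset (x : E3) : cap x ⊆ Metric.ball 0 1 := by
  rintro p ⟨h, _⟩; simpa using h

lemma pchi_integrable (x T : E3) : Integrable (pchi x T) := by
  unfold pchi
  exact (integrable_indicator_iff (capPart_measurable x T)).mpr
    (integrableOn_const (finite_of_subset_ball (capPart_subset x T)))

lemma chi_integrable (x : E3) : Integrable (chi x) := by
  unfold chi
  exact (integrable_indicator_iff (cap_measurable x)).mpr
    (integrableOn_const (finite_of_subset_ball (cap_subset x)))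

lemma pchi_integral {x T : E3} (hT : ‖T‖ = 1) :
    ∫ p, pchi x T p = 1 / 3 * (G (‖x‖ ^ 2) ‖x‖ + G (‖x‖ ^ 2) ⟪T, x⟫) := by
  have h1 : ∫ p, pchi x T p = volume.real (capPart x T) := by
    unfold pchi
    exact integral_indicator_one (capPart_measurable x T)
  rw [h1, Measure.real, capPart_volume x T hT, ENNReal.toReal_ofReal]
  have h2 := (abs_le.mp (inner_T_le (x := x) hT)).1
  have h3 := G_mono (ρ := ‖x‖ ^ 2) h2
  rw [G_neg] at h3
  linarith

lemma chi_eq (x : E3) : chi x =ᵐ[volume] pchi x ((‖x‖)⁻¹ • x) := by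
  have h0 : ∀ᵐ p : E3 ∂volume, p ≠ 0 := by
    have : volume ({0} : Set E3) = 0 := measure_singleton 0
    filter_upwards [measure_eq_zero_iff_ae_notMem.mp this] with p hp
    simpa using hp
  filter_upwards [h0] with p hp
  have hn : 0 < ‖p‖ := norm_pos_iff.mpr hp
  unfold chi pchi
  by_cases h : p ∈ cap x
  · rw [indicator_of_mem h, indicator_of_mem]
    have hx : 0 < ‖x‖ := by
      rw [norm_pos_iff]
      rintro rfl
      have := h.2
      rw [inner_zero_left] at this
      linarith
    refine ⟨h.1, h.2, ?_⟩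
    rw [real_inner_smul_left]
    have := h.2
    have : 0 < ⟪x, p⟫ := by linarith
    positivity
  · rw [indicator_of_notMem h, indicator_of_notMem]
    intro h2
    exact h ⟨h2.1, h2.2.1⟩

lemma chi_integral (x : E3) : ∫ p, chi x p = 2 / 3 * G (‖x‖ ^ 2) ‖x‖ := by
  rw [integral_congr_ae (chi_eq x)]
  by_cases hx : x = 0
  · subst hx
    have : ∀ p, pchi (0 : E3) ((‖(0:E3)‖)⁻¹ • (0 : E3)) p = 0 := by
      intro p
      unfold pchi
      rw [indicator_of_notMem]
      rintro ⟨_, _, h⟩
      simp at h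
    simp_rw [this]
    simp [G]
  · have hn : 0 < ‖x‖ := norm_pos_iff.mpr hx
    rw [pchi_integral (by rw [norm_smul, norm_inv, norm_norm, inv_mul_cancel₀ hn.ne']),
      real_inner_smul_left, real_inner_self_eq_norm_sq]
    have : (‖x‖)⁻¹ * ‖x‖ ^ 2 = ‖x‖ := by field_simp
    rw [this]; ring

lemma chi_edge (x T : E3) {d : ℝ} (hd : 0 ≤ d) (p : E3) :
    |chi (x + d • T) p - chi x p| =
      (pchi (x + d • T) T p - pchi x T p) + (pchi x (-T) p - pchi (x + d • T) (-T) p) := by
  unfold chi pchi cap capPart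
  have e : ⟪x + d • T, p⟫ = ⟪x, p⟫ + d * ⟪T, p⟫ := by
    rw [inner_add_left, real_inner_smul_left]
  simp only [indicator, mem_ofPred_eq, e, inner_neg_left, Pi.one_apply]
  by_cases h0 : ‖p‖ < 1
  · simp only [h0, true_and]
    rcases lt_trichotomy ⟪T, p⟫ 0 with h | h | h
    · have h1 : d * ⟪T, p⟫ ≤ 0 := mul_nonpos_of_nonneg_of_nonpos hd h.le
      have h2 : ¬ 0 < ⟪T, p⟫ := not_lt.mpr h.le
      have h3 : 0 < -⟪T, p⟫ := by linarith
      simp only [h2, h3, and_false, and_true, if_false]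
      by_cases h4 : ‖p‖ ≤ ⟪x, p⟫ <;> by_cases h5 : ‖p‖ ≤ ⟪x, p⟫ + d * ⟪T, p⟫ <;>
        simp [h4, h5]
      exact (h4 (by linarith)).elim
    · simp [h]
    · have h1 : 0 ≤ d * ⟪T, p⟫ := mul_nonneg hd h.le
      have h3 : ¬ 0 < -⟪T, p⟫ := by linarith
      simp only [h, h3, and_false, and_true, if_false]
      by_cases h4 : ‖p‖ ≤ ⟪x, p⟫ <;> by_cases h5 : ‖p‖ ≤ ⟪x, p⟫ + d * ⟪T, p⟫ <;>
        simp [h4, h5]
      exact (h5 (by linarith)).elim
  · simp [h0]

lemma edge_integral (x T : E3) {d : ℝ} (hd : 0 ≤ d) (hT : ‖T‖ = 1) :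
    ∫ p, |chi (x + d • T) p - chi x p| =
      2 / 3 * (G (‖x + d • T‖ ^ 2) ⟪T, x + d • T⟫ - G (‖x‖ ^ 2) ⟪T, x⟫) := by
  simp_rw [chi_edge x T hd]
  have hT' : ‖-T‖ = 1 := by rw [norm_neg, hT]
  rw [integral_add, integral_sub, integral_sub, pchi_integral hT, pchi_integral hT,
    pchi_integral hT', pchi_integral hT', inner_neg_left, inner_neg_left, G_neg, G_neg]
  · ring
  · exact pchi_integrable _ _
  · exact pchi_integrable _ _
  · exact pchi_integrable _ _
  · exact pchi_integrable _ _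
  · exact (pchi_integrable _ _).sub (pchi_integrable _ _)
  · exact (pchi_integrable _ _).sub (pchi_integrable _ _)

/-- direction of the `i`-th edge -/
def dir (v : ℕ → E3) (i : ℕ) : E3 := (‖v (i + 1) - v i‖)⁻¹ • (v (i + 1) - v i)

lemma dir_norm {v : ℕ → E3} {i : ℕ} (h : v i ≠ v (i + 1)) : ‖dir v i‖ = 1 := by
  have : 0 < ‖v (i + 1) - v i‖ := norm_pos_iff.mpr (sub_ne_zero.mpr h.symm)
  unfold dir
  rw [norm_smul, norm_inv, norm_norm, inv_mul_cancel₀ this.ne']

lemma dir_eq {v : ℕ → E3} {i : ℕ} (h : v i ≠ v (i + 1)) :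
    v i + ‖v (i + 1) - v i‖ • dir v i = v (i + 1) := by
  have : 0 < ‖v (i + 1) - v i‖ := norm_pos_iff.mpr (sub_ne_zero.mpr h.symm)
  unfold dir
  rw [smul_smul, mul_inv_cancel₀ this.ne', one_smul]
  abel

lemma pointwise_cross (f : ℕ → ℝ) (n k : ℕ) (hk : k ≤ n) (h1 : f k = 1) :
    2 ≤ f 0 + ∑ i ∈ Finset.range n, |f (i + 1) - f i| + f n := by
  have hA : ∀ m, f m ≤ f 0 + ∑ i ∈ Finset.range m, |f (i + 1) - f i| := by
    intro m
    induction m with
    | zero => simp
    | succ m ih =>
      rw [Finset.sum_range_succ]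
      have := le_abs_self (f (m + 1) - f m)
      linarith
  have hB : ∀ d, k + d ≤ n → f k + (f 0 + ∑ i ∈ Finset.range k, |f (i + 1) - f i|) ≤
      f 0 + ∑ i ∈ Finset.range (k + d), |f (i + 1) - f i| + f (k + d) := by
    intro d
    induction d with
    | zero => intro _; simp; linarith
    | succ d ih =>
      intro hd
      have h2 := ih (by omega)
      have e : k + (d + 1) = k + d + 1 := rfl
      rw [e, Finset.sum_range_succ]
      have := neg_abs_le (f (k + d + 1) - f (k + d))
      linarith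
  have h3 := hB (n - k) (by omega)
  have e : k + (n - k) = n := by omega
  rw [e] at h3
  have := hA k
  linarith

theorem crossing {n : ℕ} (v : ℕ → E3) (hne : ∀ i < n, v i ≠ v (i + 1))
    (hcov : ∀ x : E3, ‖x‖ = 1 → ∃ i ≤ n, 1 ≤ ⟪v i, x⟫) :
    4 * Real.pi ≤ ∑ i ∈ Finset.range n, (G (‖v (i + 1)‖ ^ 2) ⟪dir v i, v (i + 1)⟫ -
      G (‖v i‖ ^ 2) ⟪dir v i, v i⟫) + G (‖v 0‖ ^ 2) ‖v 0‖ + G (‖v n‖ ^ 2) ‖v n‖ := by
  have hint : ∀ i, Integrable (fun p => |chi (v (i + 1)) p - chi (v i) p|) := fun i =>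
    ((chi_integrable _).sub (chi_integrable _)).abs
  have hball : ∫ p : E3, (Metric.ball (0 : E3) 1).indicator (fun _ => (2:ℝ)) p = 8 * Real.pi / 3 := by
    rw [integral_indicator_const _ measurableSet_ball, Measure.real,
      EuclideanSpace.volume_ball_fin_three]
    simp only [ENNReal.ofReal_one, one_pow, one_mul, smul_eq_mul]
    rw [ENNReal.toReal_ofReal (by positivity)]
    ring
  have hae : (fun p : E3 => (Metric.ball (0 : E3) 1).indicator (fun _ => (2:ℝ)) p) ≤ᵐ[volume]
      fun p => chi (v 0) p + ∑ i ∈ Finset.range n, |chi (v (i + 1)) p - chi (v i) p| +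
        chi (v n) p := by
    have h0 : ∀ᵐ p : E3 ∂volume, p ≠ 0 := by
      have : volume ({0} : Set E3) = 0 := measure_singleton 0
      filter_upwards [measure_eq_zero_iff_ae_notMem.mp this] with p hp
      simpa using hp
    filter_upwards [h0] with p hp
    by_cases hb : p ∈ Metric.ball (0 : E3) 1
    · rw [indicator_of_mem hb]
      have hn : 0 < ‖p‖ := norm_pos_iff.mpr hp
      obtain ⟨k, hk, h1⟩ := hcov ((‖p‖)⁻¹ • p)
        (by rw [norm_smul, norm_inv, norm_norm, inv_mul_cancel₀ hn.ne'])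
      apply pointwise_cross (fun i => chi (v i) p) n k hk
      show (cap (v k)).indicator 1 p = 1
      rw [indicator_of_mem]
      · rfl
      · refine ⟨by simpa using hb, ?_⟩
        rw [real_inner_smul_right] at h1
        rwa [le_inv_mul_iff₀ hn, mul_one] at h1
    · rw [indicator_of_notMem hb]
      have hnn : ∀ x, 0 ≤ chi x p := fun x => indicator_nonneg (fun _ _ => zero_le_one) p
      have := Finset.sum_nonneg (s := Finset.range n)
        (f := fun i => |chi (v (i + 1)) p - chi (v i) p|) (fun i _ => abs_nonneg _)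
      have h1 := hnn (v 0)
      have h2 := hnn (v n)
      linarith
  have hS : Integrable (fun p => ∑ i ∈ Finset.range n, |chi (v (i + 1)) p - chi (v i) p|) :=
    integrable_finsetSum _ (fun i _ => hint i)
  have hS2 : Integrable (fun p => chi (v 0) p +
      ∑ i ∈ Finset.range n, |chi (v (i + 1)) p - chi (v i) p|) := (chi_integrable (v 0)).add hS
  have hS3 : Integrable (fun p => chi (v 0) p +
      ∑ i ∈ Finset.range n, |chi (v (i + 1)) p - chi (v i) p| + chi (v n) p) :=
    hS2.add (chi_integrable (v n))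
  have hmono := integral_mono_ae
    ((integrable_indicator_iff measurableSet_ball).mpr
      (integrableOn_const (finite_of_subset_ball subset_rfl))) hS3 hae
  rw [hball, integral_add hS2 (chi_integrable (v n)), integral_add (chi_integrable (v 0)) hS,
    integral_finsetSum _ (fun i _ => hint i), chi_integral, chi_integral] at hmono
  have hedge : ∀ i ∈ Finset.range n, ∫ p, |chi (v (i + 1)) p - chi (v i) p| =
      2 / 3 * (G (‖v (i + 1)‖ ^ 2) ⟪dir v i, v (i + 1)⟫ - G (‖v i‖ ^ 2) ⟪dir v i, v i⟫) := by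
    intro i hi
    have h1 := hne i (Finset.mem_range.mp hi)
    have h2 := edge_integral (v i) (dir v i) (norm_nonneg (v (i + 1) - v i)) (dir_norm h1)
    rwa [dir_eq h1] at h2
  rw [Finset.sum_congr rfl hedge, ← Finset.mul_sum] at hmono
  linarith

end

end Pool.Agent.MP_b23666_gt
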