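import Pool.Agent.Lib.MP_b23666_gt.Num

set_option autoImplicit false

open MeasureTheory Set

namespace Pool.Agent.MP_b23666_gt

noncomputable section

lemma hasDeriv_bb (s : ℝ) :
    HasDerivAt bb ((2 * (s ^ 2 + 1) - 2 / (s ^ 2 + 1)) / √(s ^ 2 + 2)) s := by
  have hr := sqrt_pos' s
  have hr2 : √(s ^ 2 + 2) ^ 2 = s ^ 2 + 2 := Real.sq_sqrt (by positivity)
  have h1 := ((((hasDerivAt_id s).mul (hasDeriv_r s)).sub_const Real.pi)).sub
    ((hasDeriv_at s).const_mul 2)
  refine h1.congr_deriv ?_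
  simp only [id]
  set r := √(s ^ 2 + 2)
  field_simp
  rw [hr2]
  ring

lemma bb_continuous : Continuous bb :=
  continuous_iff_continuousAt.mpr (fun s => (hasDeriv_bb s).continuousAt)

lemma yy_continuous : Continuous yy :=
  continuous_iff_continuousAt.mpr (fun s => (hasDeriv_yy s).continuousAt)

lemma bb_mono : Monotone bb := by
  apply monotone_of_deriv_nonneg (fun s => (hasDeriv_bb s).differentiableAt)
  intro s
  rw [(hasDeriv_bb s).deriv]
  apply div_nonneg _ (Real.sqrt_nonneg _)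
  have h1 : 1 ≤ s ^ 2 + 1 := by nlinarith [sq_nonneg s]
  have h2 : 2 / (s ^ 2 + 1) ≤ 2 := by
    rw [div_le_iff₀ (by linarith)]; linarith
  linarith

lemma bb_zero : bb 0 < 0 := by
  unfold bb; simp [Real.pi_pos]

lemma bb_two : 0 < bb 2 := by
  unfold bb
  have e : ((2:ℝ) ^ 2 + 2) = 6 := by norm_num
  rw [e]
  have h1 : (2.449:ℝ) ≤ √6 := by
    apply Real.le_sqrt_of_sq_le; norm_num
  have h2 : Real.arctan (2 / √6) ≤ Real.arctan 1 := by
    apply Real.arctan_mono
    rw [div_le_one (by linarith)]; linarith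
  rw [Real.arctan_one] at h2
  have := Real.pi_lt_d2
  linarith

lemma arctan_upper {y : ℝ} (hy : 0 ≤ y) : Real.arctan y ≤ y - y ^ 3 / 3 + y ^ 5 / 5 := by
  have hd : ∀ y : ℝ, HasDerivAt (fun y : ℝ => y - y ^ 3 / 3 + y ^ 5 / 5 - Real.arctan y)
      (1 - y ^ 2 + y ^ 4 - 1 / (1 + y ^ 2)) y := by
    intro y
    have h1 := (((hasDerivAt_id y).sub ((hasDerivAt_pow 3 y).div_const 3)).add
      ((hasDerivAt_pow 5 y).div_const 5)).sub (Real.hasDerivAt_arctan y)
    refine h1.congr_deriv ?_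
    norm_num
  have hmono : Monotone (fun y : ℝ => y - y ^ 3 / 3 + y ^ 5 / 5 - Real.arctan y) := by
    apply monotone_of_deriv_nonneg (fun y => (hd y).differentiableAt)
    intro y
    rw [(hd y).deriv]
    have : 1 - y ^ 2 + y ^ 4 - 1 / (1 + y ^ 2) = y ^ 6 / (1 + y ^ 2) := by
      field_simp; ring
    rw [this]; positivity
  have := hmono hy
  simp at this
  linarith

lemma bb_neg : bb (38879 / 20482) < 0 := by
  unfold bb
  have e : √(((38879:ℝ) / 20482) ^ 2 + 2) = 48483 / 20482 := by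
    rw [show ((38879:ℝ) / 20482) ^ 2 + 2 = (48483 / 20482) ^ 2 by norm_num,
      Real.sqrt_sq (by norm_num)]
  rw [e]
  have h1 : Real.arctan (38879 / 20482 / (48483 / 20482)) + Real.arctan (9604 / 87362) =
      Real.pi / 4 := by
    rw [Real.arctan_add (by norm_num), ← Real.arctan_one]
    congr 1
    norm_num
  have h2 := arctan_upper (y := 9604 / 87362) (by norm_num)
  have h3 := Real.pi_gt_d6
  norm_num at h2 ⊢
  norm_num at h1
  linarith

/-- The optimal parameter. -/
theorem exists_s0 : ∃ s : ℝ, 38879 / 20482 < s ∧ bb s = 0 := by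
  have h1 : ∃ s ∈ Icc (38879 / 20482 : ℝ) 2, bb s = 0 :=
    intermediate_value_Icc (by norm_num) bb_continuous.continuousOn ⟨bb_neg.le, bb_two.le⟩
  obtain ⟨s, hs, h2⟩ := h1
  refine ⟨s, lt_of_le_of_ne hs.1 ?_, h2⟩
  rintro rfl
  exact absurd h2 bb_neg.ne

lemma yy_min {s0 : ℝ} (h0 : 0 < s0) (hb : bb s0 = 0) {s : ℝ} (hs : 0 ≤ s) : yy s0 ≤ yy s := by
  rcases le_total s s0 with h | h
  · have hanti : AntitoneOn yy (Icc 0 s0) := by
      apply antitoneOn_of_deriv_nonpos (convex_Icc _ _) yy_continuous.continuousOn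
        (fun x _ => (hasDeriv_yy x).differentiableAt.differentiableWithinAt)
      intro x hx
      rw [interior_Icc] at hx
      rw [(hasDeriv_yy x).deriv]
      have h1 : bb x ≤ 0 := by rw [← hb]; exact bb_mono hx.2.le
      have h2 : 0 ≤ x / √(x ^ 2 + 2) ^ 3 := div_nonneg hx.1.le (by positivity)
      exact mul_nonpos_of_nonneg_of_nonpos h2 h1
    exact hanti ⟨hs, h⟩ ⟨h0.le, le_rfl⟩ h
  · have hmono : MonotoneOn yy (Ici s0) := by
      apply monotoneOn_of_deriv_nonneg (convex_Ici _) yy_continuous.continuousOn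
        (fun x _ => (hasDeriv_yy x).differentiableAt.differentiableWithinAt)
      intro x hx
      rw [interior_Ici] at hx
      have hx' : s0 < x := hx
      rw [(hasDeriv_yy x).deriv]
      have h1 : 0 ≤ bb x := by rw [← hb]; exact bb_mono hx'.le
      have h2 : 0 ≤ x / √(x ^ 2 + 2) ^ 3 := div_nonneg (by linarith) (by positivity)
      exact mul_nonneg h2 h1
    exact hmono (mem_Ici.mpr le_rfl) (mem_Ici.mpr h) h

lemma yy_s0 {s0 : ℝ} (hb : bb s0 = 0) : yy s0 = Real.pi + 2 * s0 - 2 * Real.arctan s0 := by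
  have hr := sqrt_pos' s0
  unfold yy
  unfold bb at hb
  have : Real.pi + 2 * Real.arctan (s0 / √(s0 ^ 2 + 2)) = s0 * √(s0 ^ 2 + 2) := by linarith
  rw [this, mul_div_assoc, div_self hr.ne']
  ring

lemma YY_ge {s0 : ℝ} (h0 : 0 < s0) (hb : bb s0 = 0) (r : ℝ) (hr : 0 ≤ r) :
    yy s0 ≤ YY (r ^ 2) := by
  unfold YY
  rw [Real.sqrt_sq hr]
  rcases le_or_gt 2 (r ^ 2) with h | h
  · have hrpos : 0 < r := by
      rcases hr.eq_or_lt with rfl | h1
      · norm_num at h
      · exact h1
    set s := √(r ^ 2 - 2) with hs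
    have hs0 : 0 ≤ s := Real.sqrt_nonneg _
    have hs2 : r ^ 2 = s ^ 2 + 2 := by
      rw [hs, Real.sq_sqrt (by linarith)]; ring
    have hr1 : 1 < r := by nlinarith
    rw [Phi_two hs0 hrpos hs2, G_mid hs0 hrpos hs2, G_full hr1]
    have h1 := yy_min h0 hb hs0
    have e : √(s ^ 2 + 2) = r := by rw [← hs2, Real.sqrt_sq hr]
    unfold yy at h1 ⊢
    rw [e] at h1
    have e2 : (Real.pi + 2 * Real.arctan (s / r)) / r = Real.pi * (1 / r) + 2 / r * Real.arctan (s / r) := by
      field_simp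
    rw [e2] at h1
    linarith
  · have h1 := yy_min h0 hb (le_refl (0:ℝ))
    have h2 : yy 0 = Real.pi + Real.pi / √2 := by
      unfold yy; simp
    have h3 : 0 ≤ Phi 2 (r ^ 2) := Phi_nonneg le_rfl
    have hs2 : 0 < √2 := by positivity
    have hs3 : 1 ≤ √2 := by
      apply Real.le_sqrt_of_sq_le; norm_num
    rcases le_or_gt r 1 with h4 | h4
    · rw [G_small hr h4]
      have h5 : Real.pi / √2 ≤ Real.pi := div_le_self Real.pi_pos.le hs3
      linarith
    · rw [G_full h4]
      have h6 : r ≤ √2 := Real.le_sqrt_of_sq_le h.le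
      have h7 : Real.pi / √2 ≤ Real.pi / r :=
        div_le_div_of_nonneg_left Real.pi_pos.le (by linarith) h6
      have h8 : Real.pi * (1 - 1 / r) = Real.pi - Real.pi / r := by ring
      rw [h8]
      linarith

lemma arctan_id_mono {a b : ℝ} (h : a ≤ b) : a - Real.arctan a ≤ b - Real.arctan b := by
  have hd : ∀ y : ℝ, HasDerivAt (fun y : ℝ => y - Real.arctan y) (1 - 1 / (1 + y ^ 2)) y := by
    intro y
    exact (hasDerivAt_id y).sub (Real.hasDerivAt_arctan y)
  have hmono : Monotone (fun y : ℝ => y - Real.arctan y) := by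
    apply monotone_of_deriv_nonneg (fun y => (hd y).differentiableAt)
    intro y
    rw [(hd y).deriv]
    have : 1 / (1 + y ^ 2) ≤ 1 := by
      rw [div_le_one (by positivity)]; nlinarith [sq_nonneg y]
    linarith
  exact hmono h

lemma value_gt {s0 : ℝ} (h : 38879 / 20482 < s0) :
    4.766 < Real.pi + 2 * s0 - 2 * Real.arctan s0 := by
  have h1 := arctan_id_mono h.le
  have h2 : Real.arctan (38879 / 20482) = Real.pi / 4 + Real.arctan (18397 / 59361) := by
    rw [← Real.arctan_one, Real.arctan_add (by norm_num)]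
    congr 1
    norm_num
  have h3 := arctan_upper (y := 18397 / 59361) (by norm_num)
  have h4 := Real.pi_gt_d6
  rw [h2] at h1
  norm_num at h3 ⊢
  linarith

end

end Pool.Agent.MP_b23666_gt
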