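import Pool.Agent.Lib.MP_b23666_gt.Exist
import Pool.Agent.Lib.MP_b23666_gt.Num2

set_option autoImplicit false

open MeasureTheory Set
open scoped RealInnerProductSpace

namespace Pool.Agent.MP_b23666_gt

noncomputable section

/-- The bound for curves whose convex hull contains the unit ball (in support function form). -/
theorem curve_bound {s0 : ℝ} (h0 : 0 < s0) (hb : bb s0 = 0) (γ : ℝ → E3)
    (hγ : ContinuousOn γ (Icc 0 1))
    (hsee : ∀ x : E3, ‖x‖ = 1 → ∃ t ∈ Icc (0:ℝ) 1, 1 ≤ ⟪γ t, x⟫) :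
    ENNReal.ofReal (2 * yy s0) ≤ eVariationOn γ (Icc 0 1) := by
  by_cases hV : eVariationOn γ (Icc 0 1) = ⊤
  · rw [hV]; exact le_top
  set V := (eVariationOn γ (Icc 0 1)).toReal with hVdef
  have hVeq : eVariationOn γ (Icc 0 1) = ENNReal.ofReal V := (ENNReal.ofReal_toReal hV).symm
  rw [hVeq]
  apply ENNReal.ofReal_le_ofReal
  have hV0 : 0 ≤ V := ENNReal.toReal_nonneg
  have key : ∀ δ : ℝ, 0 < δ → δ < 1 → (1 - δ) * (2 * yy s0) ≤ V := by
    intro δ hδ hδ1
    have huc := (isCompact_Icc (a := (0:ℝ)) (b := 1)).uniformContinuousOn_of_continuous hγ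
    rw [Metric.uniformContinuousOn_iff] at huc
    obtain ⟨η, hη, hη2⟩ := huc δ hδ
    obtain ⟨N, hN⟩ := exists_nat_one_div_lt hη
    set M : ℕ := N + 1 with hM
    have hMpos : (0:ℝ) < M := by rw [hM]; positivity
    have hMη : 1 / (M:ℝ) < η := by rw [hM]; push_cast; exact hN
    set u : ℕ → ℝ := fun i => min ((i:ℝ) / M) 1 with hu
    have hu_mem : ∀ i, u i ∈ Icc (0:ℝ) 1 := by
      intro i
      exact ⟨le_min (by positivity) zero_le_one, min_le_right _ _⟩
    have hu_mono : Monotone u := by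
      intro i j hij
      apply min_le_min _ le_rfl
      apply div_le_div_of_nonneg_right _ hMpos.le
      exact_mod_cast hij
    set w : ℕ → E3 := fun i => (1 - δ)⁻¹ • γ (u i) with hw
    have hd : 0 < 1 - δ := by linarith
    have hcov : Cover w M := by
      intro x hx
      obtain ⟨t, ht, h1⟩ := hsee x hx
      set i := ⌊t * M⌋₊ with hi
      have ht0 : 0 ≤ t * M := mul_nonneg ht.1 hMpos.le
      have hi1 : (i:ℝ) ≤ t * M := Nat.floor_le ht0
      have hi2 : t * M < i + 1 := Nat.lt_floor_add_one _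
      have hiM : i ≤ M := by
        have : (i:ℝ) ≤ M := hi1.trans (by nlinarith [ht.2])
        exact_mod_cast this
      refine ⟨i, hiM, ?_⟩
      have hui : u i = (i:ℝ) / M := by
        apply min_eq_left
        rw [div_le_one hMpos]; exact_mod_cast hiM
      have hclose : dist t (u i) < η := by
        rw [hui, Real.dist_eq]
        have e : t - (i:ℝ) / M = (t * M - i) / M := by field_simp
        rw [e, abs_of_nonneg (div_nonneg (by linarith) hMpos.le)]
        have : (t * M - i) / M < 1 / M := by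
          apply div_lt_div_of_pos_right _ hMpos; linarith
        linarith
      have h2 := hη2 t ht (u i) (hu_mem i) hclose
      rw [dist_eq_norm] at h2
      have h3 := real_inner_le_norm (γ t - γ (u i)) x
      rw [hx, mul_one, inner_sub_left] at h3
      have h4 : 1 - δ ≤ ⟪γ (u i), x⟫ := by linarith
      simp only [hw, real_inner_smul_left]
      rw [le_inv_mul_iff₀ hd, mul_one]; exact h4
    have h5 := poly_bound G_le_pi (fun r hr => YY_ge h0 hb r hr) M w hcov
    have h6 : len w M ≤ (1 - δ)⁻¹ * V := by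
      have e1 : len w M = (1 - δ)⁻¹ * ∑ i ∈ Finset.range M, dist (γ (u i)) (γ (u (i + 1))) := by
        unfold len
        rw [Finset.mul_sum]
        apply Finset.sum_congr rfl
        intro i _
        simp only [hw]
        rw [dist_smul₀, Real.norm_eq_abs, abs_of_pos (inv_pos.mpr hd)]
      rw [e1]
      apply mul_le_mul_of_nonneg_left _ (inv_pos.mpr hd).le
      have h7 := eVariationOn.sum_le (f := γ) (s := Icc 0 1) (n := M) hu_mono hu_mem
      have h8 : ∑ i ∈ Finset.range M, edist (γ (u (i + 1))) (γ (u i)) =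
          ENNReal.ofReal (∑ i ∈ Finset.range M, dist (γ (u i)) (γ (u (i + 1)))) := by
        rw [ENNReal.ofReal_sum_of_nonneg (fun _ _ => dist_nonneg)]
        apply Finset.sum_congr rfl
        intro i _
        rw [edist_comm, edist_dist]
      rw [h8, hVeq] at h7
      exact (ENNReal.ofReal_le_ofReal_iff hV0).mp h7
    have h9 := h5.trans h6
    rwa [le_inv_mul_iff₀ hd] at h9
  by_contra hcon
  rw [not_le] at hcon
  have hy : 0 < 2 * yy s0 := lt_of_le_of_lt hV0 hcon
  set δ := (2 * yy s0 - V) / (2 * (2 * yy s0)) with hδ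
  have h1 : 0 < δ := by rw [hδ]; apply div_pos (by linarith) (by positivity)
  have h2 : δ < 1 := by
    rw [hδ, div_lt_one (by positivity)]; linarith
  have h3 := key δ h1 h2
  have hy2 : yy s0 ≠ 0 := by
    intro h
    rw [h] at hy
    simp at hy
  have h4 : δ * (2 * yy s0) = (2 * yy s0 - V) / 2 := by
    rw [hδ]; field_simp
  nlinarith

/-- If the segment from `p` to the point `x` of the unit sphere avoids the open unit ball then
`p` lies beyond the tangent plane at `x`. -/
lemma inner_of_sees {p x : E3} (hx : ‖x‖ = 1) (h : ∀ y ∈ segment ℝ p x, 1 ≤ ‖y‖) :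
    1 ≤ ⟪p, x⟫ := by
  have key : ∀ t : ℝ, 0 < t → t ≤ 1 → 0 ≤ t * (2 * (⟪p, x⟫ - 1)) + t ^ 2 * ‖p - x‖ ^ 2 := by
    intro t ht ht1
    have h1 := h (x + t • (p - x)) (by
      refine ⟨t, 1 - t, ht.le, by linarith, by ring, ?_⟩
      rw [sub_smul, one_smul, smul_sub]; abel)
    have h2 : ‖x + t • (p - x)‖ ^ 2 = 1 + t * (2 * (⟪p, x⟫ - 1)) + t ^ 2 * ‖p - x‖ ^ 2 := by
      rw [norm_add_sq_real, real_inner_smul_right, inner_sub_right, real_inner_self_eq_norm_sq,
        hx, norm_smul, Real.norm_eq_abs, mul_pow, sq_abs, real_inner_comm]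
      ring
    nlinarith
  by_contra hcon
  rw [not_le] at hcon
  have hK : 0 < ‖p - x‖ ^ 2 + 1 := by positivity
  set X := 2 * (1 - ⟪p, x⟫) with hX
  have hXpos : 0 < X := by rw [hX]; linarith
  set t := min 1 (X / (2 * (‖p - x‖ ^ 2 + 1))) with ht
  have ht0 : 0 < t := lt_min one_pos (by positivity)
  have h1 := key t ht0 (min_le_left _ _)
  have h2 : t * (‖p - x‖ ^ 2 + 1) ≤ X / 2 := by
    have h3 : t ≤ X / (2 * (‖p - x‖ ^ 2 + 1)) := min_le_right _ _
    calc t * (‖p - x‖ ^ 2 + 1) ≤ X / (2 * (‖p - x‖ ^ 2 + 1)) * (‖p - x‖ ^ 2 + 1) :=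
          mul_le_mul_of_nonneg_right h3 hK.le
      _ = X / 2 := by field_simp
  nlinarith

end

end Pool.Agent.MP_b23666_gt
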