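import Pool.Agent.Lib.MP_b23666_gt.Poly

set_option autoImplicit false

open MeasureTheory Set
open scoped RealInnerProductSpace

namespace Pool.Agent.MP_b23666_gt

noncomputable section

/-- Extension of a finite family of vertices to a sequence. -/
def ext {n : ℕ} (w : Fin (n + 1) → E3) (i : ℕ) : E3 := if h : i < n + 1 then w ⟨i, h⟩ else 0

lemma ext_continuous {n : ℕ} (i : ℕ) : Continuous (fun w : Fin (n + 1) → E3 => ext w i) := by
  unfold ext
  by_cases h : i < n + 1
  · simp only [h, dif_pos]; fun_prop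
  · simp only [h, dif_neg, not_false_iff]; fun_prop

lemma ext_restrict (v : ℕ → E3) (n i : ℕ) (hi : i ≤ n) :
    v i = ext (fun j : Fin (n + 1) => v j) i := by
  unfold ext
  rw [dif_pos (by omega)]

lemma dist_le_len {v : ℕ → E3} {n i j : ℕ} (hi : i ≤ n) (hj : j ≤ n) : dist (v i) (v j) ≤ len v n := by
  wlog h : i ≤ j generalizing i j
  · rw [dist_comm]; exact this hj hi (by omega)
  · refine (dist_le_Ico_sum_dist v h).trans ?_
    unfold len
    apply Finset.sum_le_sum_of_subset_of_nonneg
    · intro k hk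
      rw [Finset.mem_Ico] at hk
      rw [Finset.mem_range]; omega
    · intro _ _ _; exact dist_nonneg

lemma Cover.norm_le {v : ℕ → E3} {n : ℕ} (h : Cover v n) {i : ℕ} (hi : i ≤ n) :
    ‖v i‖ ≤ len v n := by
  have hlen : 0 ≤ len v n := Finset.sum_nonneg (fun _ _ => dist_nonneg)
  by_cases h0 : v i = 0
  · rw [h0, norm_zero]; exact hlen
  · have hr : 0 < ‖v i‖ := norm_pos_iff.mpr h0
    obtain ⟨j, hj, h1⟩ := h (-((‖v i‖)⁻¹ • v i)) (by
      rw [norm_neg, norm_smul, norm_inv, norm_norm, inv_mul_cancel₀ hr.ne'])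
    have h2 : ⟪v i, -((‖v i‖)⁻¹ • v i)⟫ = -‖v i‖ := by
      rw [inner_neg_right, real_inner_smul_right, real_inner_self_eq_norm_sq]
      field_simp
    have h3 : 1 + ‖v i‖ ≤ ⟪v j - v i, -((‖v i‖)⁻¹ • v i)⟫ := by
      rw [inner_sub_left, h2]; linarith
    have h4 := real_inner_le_norm (v j - v i) (-((‖v i‖)⁻¹ • v i))
    rw [norm_neg, norm_smul, norm_inv, norm_norm, inv_mul_cancel₀ hr.ne', mul_one,
      ← dist_eq_norm] at h4
    have h5 := dist_le_len (v := v) hj hi
    linarith

lemma exists_min {n : ℕ} (v : ℕ → E3) (hv : Cover v n) :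
    ∃ u : ℕ → E3, Cover u n ∧ (∀ w, Cover w n → len u n ≤ len w n) := by
  set K : Set (Fin (n + 1) → E3) := {w | Cover (ext w) n ∧ len (ext w) n ≤ len v n} with hK
  have hlencont : Continuous (fun w : Fin (n + 1) → E3 => len (ext w) n) := by
    unfold len
    refine continuous_finsetSum _ (fun i _ => ?_)
    exact (ext_continuous i).dist (ext_continuous (i + 1))
  have hclosed : IsClosed K := by
    have e : K = (⋂ x : E3, ⋂ _ : ‖x‖ = 1, ⋃ i ∈ Finset.range (n + 1), {w | 1 ≤ ⟪ext w i, x⟫}) ∩
        {w | len (ext w) n ≤ len v n} := by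
      ext w
      simp only [hK, Cover, mem_ofPred_eq, mem_inter_iff, mem_iInter, mem_iUnion, Finset.mem_range,
        exists_prop, Nat.lt_succ_iff]
    rw [e]
    apply IsClosed.inter
    · refine isClosed_iInter (fun x => isClosed_iInter (fun _ => ?_))
      apply Set.Finite.isClosed_biUnion (Finset.finite_toSet _)
      intro i _
      exact isClosed_le continuous_const ((ext_continuous i).inner continuous_const)
    · exact isClosed_le hlencont continuous_const
  have hbdd : Bornology.IsBounded K := by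
    rw [isBounded_iff_forall_norm_le]
    refine ⟨len v n, ?_⟩
    rintro w ⟨h1, h2⟩
    have hlen : 0 ≤ len v n := Finset.sum_nonneg (fun _ _ => dist_nonneg)
    rw [pi_norm_le_iff_of_nonneg hlen]
    intro i
    have h3 := h1.norm_le (i := i) (by omega)
    have h4 : ext w i = w i := by
      unfold ext; rw [dif_pos i.2]
    rw [h4] at h3
    exact h3.trans h2
  have hcomp : IsCompact K := Metric.isCompact_of_isClosed_isBounded hclosed hbdd
  have hne : K.Nonempty := by
    refine ⟨fun j => v j, ?_, ?_⟩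
    · exact Cover_congr (fun i hi => ext_restrict v n i hi) hv
    · exact (len_congr (fun i hi => ext_restrict v n i hi)).symm.le
  obtain ⟨w, hwK, hw⟩ := hcomp.exists_isMinOn hne hlencont.continuousOn
  refine ⟨ext w, hwK.1, ?_⟩
  intro z hz
  by_cases h : len z n ≤ len v n
  · have hzK : (fun j : Fin (n + 1) => z j) ∈ K :=
      ⟨Cover_congr (fun i hi => ext_restrict z n i hi) hz,
        (len_congr (fun i hi => ext_restrict z n i hi)).symm.le.trans h⟩
    have h1 := hw hzK
    simp only [mem_ofPred_eq] at h1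
    exact h1.trans (len_congr (fun i hi => ext_restrict z n i hi)).symm.le
  · exact hwK.2.trans (not_le.mp h).le

/-- Removing the vertex `k + 1`. -/
def del (v : ℕ → E3) (k : ℕ) (j : ℕ) : E3 := if j ≤ k then v j else v (j + 1)

lemma len_del {v : ℕ → E3} {k : ℕ} (hk : v k = v (k + 1)) {m : ℕ} (hm : k ≤ m) :
    len (del v k) m = len v (m + 1) := by
  induction m, hm using Nat.le_induction with
  | base =>
    unfold len
    rw [Finset.sum_range_succ, ← hk, dist_self, add_zero]
    apply Finset.sum_congr rfl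
    intro i hi
    rw [Finset.mem_range] at hi
    unfold del
    rw [if_pos (by omega), if_pos (by omega)]
  | succ m hm ih =>
    have e1 : len (del v k) (m + 1) = len (del v k) m + dist (del v k m) (del v k (m + 1)) := by
      unfold len; rw [Finset.sum_range_succ]
    have e2 : len v (m + 1 + 1) = len v (m + 1) + dist (v (m + 1)) (v (m + 1 + 1)) := by
      unfold len; rw [Finset.sum_range_succ]
    rw [e1, e2, ih]
    congr 1
    have e3 : del v k (m + 1) = v (m + 1 + 1) := by
      unfold del; rw [if_neg (by omega)]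
    have e4 : del v k m = v (m + 1) := by
      unfold del
      by_cases h : m ≤ k
      · rw [if_pos h]
        have : m = k := by omega
        rw [this, hk]
      · rw [if_neg h]
    rw [e3, e4]

lemma Cover_del {v : ℕ → E3} {k n : ℕ} (hk : v k = v (k + 1)) (hkn : k ≤ n) (hv : Cover v (n + 1)) :
    Cover (del v k) n := by
  intro x hx
  obtain ⟨i, hi, h1⟩ := hv x hx
  by_cases h : i ≤ k
  · refine ⟨i, by omega, ?_⟩
    unfold del; rwa [if_pos h]
  · by_cases h2 : i = k + 1
    · refine ⟨k, hkn, ?_⟩
      unfold del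
      rw [if_pos le_rfl, hk, ← h2]; exact h1
    · refine ⟨i - 1, by omega, ?_⟩
      unfold del
      rw [if_neg (by omega), show i - 1 + 1 = i by omega]; exact h1

theorem poly_bound {c : ℝ} (hpi : ∀ r : ℝ, 0 ≤ r → G (r ^ 2) r ≤ Real.pi)
    (hY : ∀ r : ℝ, 0 ≤ r → c ≤ YY (r ^ 2)) (n : ℕ) :
    ∀ v : ℕ → E3, Cover v n → 2 * c ≤ len v n := by
  induction n using Nat.strong_induction_on with
  | _ n ih =>
    intro v hv
    rcases Nat.eq_zero_or_pos n with rfl | hn
    · exfalso
      obtain ⟨x, hx⟩ : ∃ x : E3, ‖x‖ = 1 := exists_norm_eq E3 zero_le_one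
      obtain ⟨i, hi, h1⟩ := hv x hx
      obtain ⟨j, hj, h2⟩ := hv (-x) (by rw [norm_neg, hx])
      have : i = 0 := by omega
      have : j = 0 := by omega
      subst i; subst j
      rw [inner_neg_right] at h2
      linarith
    · obtain ⟨u, hu, hmin⟩ := exists_min v hv
      refine le_trans ?_ (hmin v hv)
      by_cases hne : ∀ i < n, u i ≠ u (i + 1)
      · have hM : Minimal u n := ⟨hu, hmin, hne⟩
        have h1 := hM.bound hn hpi
        have h2 := hY ‖u 0‖ (norm_nonneg _)
        have h3 := hY ‖u n‖ (norm_nonneg _)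
        linarith
      · push Not at hne
        obtain ⟨k, hk, hkk⟩ := hne
        obtain ⟨m, rfl⟩ : ∃ m, n = m + 1 := ⟨n - 1, by omega⟩
        rw [← len_del hkk (by omega : k ≤ m)]
        exact ih m (by omega) _ (Cover_del hkk (by omega) hu)

end

end Pool.Agent.MP_b23666_gt
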