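import Mathlib

set_option autoImplicit false

open MeasureTheory Set

namespace Pool.Agent.MP_b23666_gt

noncomputable section

/-- The efficiency function: `2 * sqrt (z - 1) / z` for `z ≥ 1` and `0` for `z ≤ 1`. -/
def gg (z : ℝ) : ℝ := 2 * √(z - 1) / max z 1

lemma gg_continuous : Continuous gg := by
  unfold gg
  refine Continuous.div (by fun_prop) (by fun_prop) ?_
  intro x
  have : (1 : ℝ) ≤ max x 1 := le_max_right _ _
  linarith

lemma gg_nonneg (z : ℝ) : 0 ≤ gg z := by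
  unfold gg
  have : (1 : ℝ) ≤ max z 1 := le_max_right _ _
  positivity

lemma gg_of_one_le {z : ℝ} (h : 1 ≤ z) : gg z = 2 * √(z - 1) / z := by
  unfold gg; rw [max_eq_left h]

lemma gg_of_le_one {z : ℝ} (h : z ≤ 1) : gg z = 0 := by
  unfold gg; rw [Real.sqrt_eq_zero_of_nonpos (by linarith)]; simp

lemma gg_le_one (z : ℝ) : gg z ≤ 1 := by
  by_cases h : 1 ≤ z
  · rw [gg_of_one_le h, div_le_one (by linarith)]
    have h1 : √(z - 1) ^ 2 = z - 1 := Real.sq_sqrt (by linarith)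
    nlinarith [sq_nonneg (√(z - 1) - 1)]
  · rw [gg_of_le_one (by linarith)]; norm_num

lemma gg_two : gg 2 = 1 := by
  rw [gg_of_one_le (by norm_num)]; norm_num

lemma gg_pos {z : ℝ} (h : 1 < z) : 0 < gg z := by
  rw [gg_of_one_le h.le]
  have : 0 < √(z - 1) := Real.sqrt_pos.mpr (by linarith)
  have : 0 < z := by linarith
  positivity

lemma gg_antitone {z w : ℝ} (hz : 2 ≤ z) (hw : z ≤ w) : gg w ≤ gg z := by
  rw [gg_of_one_le (by linarith), gg_of_one_le (by linarith), div_le_div_iff₀ (by linarith) (by linarith)]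
  have hw0 : 0 ≤ w := by linarith
  have hz0 : 0 ≤ z := by linarith
  have h1 : z * √(w - 1) ≤ w * √(z - 1) := by
    apply le_of_sq_le_sq _ (by positivity)
    rw [mul_pow, mul_pow, Real.sq_sqrt (by linarith), Real.sq_sqrt (by linarith)]
    nlinarith [mul_nonneg (sub_nonneg.mpr hw) (show 0 ≤ w * z - w - z by nlinarith)]
  linarith

/-- The weight `k`: zero below `ζ` and `1 - gg z / gg ζ` above. -/
def kk (ζ z : ℝ) : ℝ := 1 - gg (max z ζ) / gg ζ

lemma kk_continuous (ζ : ℝ) : Continuous (kk ζ) := by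
  unfold kk
  exact continuous_const.sub ((gg_continuous.comp (by fun_prop)).div_const _)

lemma kk_of_le {ζ z : ℝ} (hζ : 2 ≤ ζ) (h : z ≤ ζ) : kk ζ z = 0 := by
  unfold kk
  rw [max_eq_right h, div_self (gg_pos (by linarith)).ne', sub_self]

lemma kk_mono {ζ z w : ℝ} (hζ : 2 ≤ ζ) (h : z ≤ w) : kk ζ z ≤ kk ζ w := by
  unfold kk
  have := gg_antitone (z := max z ζ) (w := max w ζ) (le_trans hζ (le_max_right _ _))
    (max_le_max h le_rfl)
  have h2 := gg_pos (z := ζ) (by linarith)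
  have := div_le_div_of_nonneg_right this h2.le
  linarith

lemma kk_nonneg {ζ z : ℝ} (hζ : 2 ≤ ζ) : 0 ≤ kk ζ z := by
  rcases le_total z ζ with h | h
  · rw [kk_of_le hζ h]
  · rw [← kk_of_le hζ le_rfl]; exact kk_mono hζ h

/-- `G ρ σ`: half the signed measure of planes. -/
def G (ρ σ : ℝ) : ℝ := ∫ τ in (0:ℝ)..σ, gg (ρ - τ ^ 2)

def Psi (ζ ρ σ : ℝ) : ℝ := ∫ τ in (0:ℝ)..σ, kk ζ (ρ - τ ^ 2)

def Phi (ζ ρ : ℝ) : ℝ := Psi ζ ρ (√ρ)

lemma kk_int (ζ ρ a b : ℝ) : IntervalIntegrable (fun τ => kk ζ (ρ - τ ^ 2)) volume a b :=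
  ((kk_continuous ζ).comp (by fun_prop)).intervalIntegrable _ _

lemma gg_int (ρ a b : ℝ) : IntervalIntegrable (fun τ => gg (ρ - τ ^ 2)) volume a b :=
  (gg_continuous.comp (by fun_prop)).intervalIntegrable _ _

lemma Psi_neg (ζ ρ σ : ℝ) : Psi ζ ρ (-σ) = - Psi ζ ρ σ := by
  unfold Psi
  have := intervalIntegral.integral_comp_neg (f := fun τ => kk ζ (ρ - τ ^ 2)) (a := 0) (b := σ)
  simp only [neg_zero, neg_sq] at this
  rw [this, intervalIntegral.integral_symm]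

lemma G_neg (ρ σ : ℝ) : G ρ (-σ) = - G ρ σ := by
  unfold G
  have := intervalIntegral.integral_comp_neg (f := fun τ => gg (ρ - τ ^ 2)) (a := 0) (b := σ)
  simp only [neg_zero, neg_sq] at this
  rw [this, intervalIntegral.integral_symm]

lemma Phi_mono {ζ ρ ρ' : ℝ} (hζ : 2 ≤ ζ) (h : ρ ≤ ρ') : Phi ζ ρ ≤ Phi ζ ρ' := by
  unfold Phi Psi
  have h1 : √ρ ≤ √ρ' := Real.sqrt_le_sqrt h
  rw [← intervalIntegral.integral_add_adjacent_intervals (kk_int ζ ρ' 0 (√ρ)) (kk_int ζ ρ' (√ρ) (√ρ'))]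
  have h2 : ∫ τ in (0:ℝ)..√ρ, kk ζ (ρ - τ ^ 2) ≤ ∫ τ in (0:ℝ)..√ρ, kk ζ (ρ' - τ ^ 2) := by
    apply intervalIntegral.integral_mono_on (Real.sqrt_nonneg _) (kk_int _ _ _ _) (kk_int _ _ _ _)
    intro x _
    exact kk_mono hζ (by linarith)
  have h3 : 0 ≤ ∫ τ in √ρ..√ρ', kk ζ (ρ' - τ ^ 2) :=
    intervalIntegral.integral_nonneg h1 (fun _ _ => kk_nonneg hζ)
  linarith

lemma Phi_nonneg {ζ ρ : ℝ} (hζ : 2 ≤ ζ) : 0 ≤ Phi ζ ρ :=
  intervalIntegral.integral_nonneg (Real.sqrt_nonneg _) (fun _ _ => kk_nonneg hζ)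

/-- The tail part `Phi - Psi`, after the substitution. -/
lemma tail_eq {ζ c s : ℝ} (hc : 0 ≤ c) (hs : 0 < s) :
    Phi ζ (c + s ^ 2) - Psi ζ (c + s ^ 2) s =
      ∫ t in (0:ℝ)..√c, kk ζ (c - t ^ 2) * (t / √(s ^ 2 + t ^ 2)) := by
  unfold Phi Psi
  rw [intervalIntegral.integral_interval_sub_left (kk_int _ _ _ _) (kk_int _ _ _ _)]
  have h := intervalIntegral.integral_comp_mul_deriv (a := 0) (b := √c)
    (f := fun t => √(s ^ 2 + t ^ 2)) (f' := fun t => t / √(s ^ 2 + t ^ 2))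
    (g := fun τ => kk ζ (c + s ^ 2 - τ ^ 2)) ?_ ?_ ?_
  · simp only [Function.comp] at h
    have e1 : √(s ^ 2 + 0 ^ 2) = s := by
      rw [show s ^ 2 + (0:ℝ) ^ 2 = s ^ 2 by ring, Real.sqrt_sq hs.le]
    have e2 : √(s ^ 2 + √c ^ 2) = √(c + s ^ 2) := by rw [Real.sq_sqrt hc, add_comm]
    rw [e1, e2] at h
    rw [← h]
    apply intervalIntegral.integral_congr
    intro t _
    simp only
    rw [Real.sq_sqrt (by positivity)]
    ring_nf
  · intro x _
    have hpos : 0 < s ^ 2 + x ^ 2 := by positivity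
    have h1 : HasDerivAt (fun t : ℝ => s ^ 2 + t ^ 2) (2 * x) x := by
      simpa using (hasDerivAt_pow 2 x).const_add (s ^ 2)
    have h2 := h1.sqrt hpos.ne'
    convert h2 using 1
    field_simp
  · apply Continuous.continuousOn
    refine Continuous.div continuous_id (by fun_prop) ?_
    intro x
    have : 0 < s ^ 2 + x ^ 2 := by positivity
    exact (Real.sqrt_pos.mpr this).ne'
  · exact ((kk_continuous ζ).comp (by fun_prop))

lemma tail_mono {ζ c a b : ℝ} (hζ : 2 ≤ ζ) (hc : 0 ≤ c) (ha : 0 ≤ a) (hab : a ≤ b) :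
    Phi ζ (c + b ^ 2) - Psi ζ (c + b ^ 2) b ≤ Phi ζ (c + a ^ 2) - Psi ζ (c + a ^ 2) a := by
  rcases hab.eq_or_lt with rfl | hab
  · exact le_rfl
  have hb : 0 < b := lt_of_le_of_lt ha hab
  rw [tail_eq hc hb]
  have hint : ∀ s : ℝ, 0 < s → IntervalIntegrable
      (fun t => kk ζ (c - t ^ 2) * (t / √(s ^ 2 + t ^ 2))) volume 0 (√c) := by
    intro s hs
    apply Continuous.intervalIntegrable
    refine ((kk_continuous ζ).comp (by fun_prop)).mul (Continuous.div continuous_id (by fun_prop) ?_)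
    intro x
    have : 0 < s ^ 2 + x ^ 2 := by positivity
    exact (Real.sqrt_pos.mpr this).ne'
  rcases ha.eq_or_lt with rfl | ha
  · have e : Phi ζ (c + 0 ^ 2) - Psi ζ (c + 0 ^ 2) 0 = ∫ t in (0:ℝ)..√c, kk ζ (c - t ^ 2) := by
      unfold Phi Psi; simp
    rw [e]
    apply intervalIntegral.integral_mono_on (Real.sqrt_nonneg _) (hint b hb) (kk_int _ _ _ _)
    intro t ht
    have h1 : t / √(b ^ 2 + t ^ 2) ≤ 1 := by
      apply div_le_one_of_le₀ _ (Real.sqrt_nonneg _)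
      apply Real.le_sqrt_of_sq_le
      nlinarith
    nlinarith [kk_nonneg (ζ := ζ) (z := c - t ^ 2) hζ]
  · rw [tail_eq hc ha]
    apply intervalIntegral.integral_mono_on (Real.sqrt_nonneg _) (hint b hb) (hint a ha)
    intro t ht
    apply mul_le_mul_of_nonneg_left _ (kk_nonneg hζ)
    apply div_le_div_of_nonneg_left ht.1
    · exact Real.sqrt_pos.mpr (by positivity)
    · apply Real.sqrt_le_sqrt
      nlinarith

lemma Psi_eq_Phi {ζ c s : ℝ} (hζ : 2 ≤ ζ) (hc0 : 0 ≤ c) (hc : c ≤ ζ) (hs : 0 ≤ s) :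
    Psi ζ (c + s ^ 2) s = Phi ζ (c + s ^ 2) := by
  have h1 : Phi ζ (c + s ^ 2) - Psi ζ (c + s ^ 2) s = 0 := by
    unfold Phi Psi
    rw [intervalIntegral.integral_interval_sub_left (kk_int _ _ _ _) (kk_int _ _ _ _)]
    have : ∫ x in s..√(c + s ^ 2), kk ζ (c + s ^ 2 - x ^ 2) = ∫ x in s..√(c + s ^ 2), (0:ℝ) := by
      apply intervalIntegral.integral_congr
      intro x hx
      have hle : s ≤ √(c + s ^ 2) := Real.le_sqrt_of_sq_le (by linarith)
      rw [uIcc_of_le hle] at hx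
      simp only
      apply kk_of_le hζ
      nlinarith [hx.1]
    rw [this]; simp
  linarith

end

end Pool.Agent.MP_b23666_gt
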