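import Pool.Agent.Lib.MP_b23666_gt.Cap
import Pool.Agent.Lib.MP_b23666_gt.Chain

set_option autoImplicit false

open MeasureTheory Set

namespace Pool.Agent.MP_b23666_gt

noncomputable section

/-- The closed form of the antiderivative. -/
lemma G_closed {r σ : ℝ} (hr : 1 < r) (h0 : 0 ≤ σ) (hσ : σ ≤ √(r ^ 2 - 1)) :
    G (r ^ 2) σ = 2 * Real.arcsin (σ / √(r ^ 2 - 1)) -
      2 / r * Real.arcsin (σ / (√(r ^ 2 - 1) * √(r ^ 2 - σ ^ 2))) := by
  have hq2' : 0 < r ^ 2 - 1 := by nlinarith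
  set q := √(r ^ 2 - 1) with hq
  have hqpos : 0 < q := Real.sqrt_pos.mpr hq2'
  have hq2 : q ^ 2 = r ^ 2 - 1 := Real.sq_sqrt hq2'.le
  set F : ℝ → ℝ := fun τ => 2 * Real.arcsin (τ / q) -
      2 / r * Real.arcsin (τ / (q * √(r ^ 2 - τ ^ 2))) with hF
  have hcont : ContinuousOn F (Icc 0 σ) := by
    rw [hF]
    apply ContinuousOn.sub
    · exact (continuous_const.mul (Real.continuous_arcsin.comp (by fun_prop))).continuousOn
    · apply continuousOn_const.mul
      apply Real.continuous_arcsin.comp_continuousOn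
      apply ContinuousOn.div continuousOn_id (by fun_prop)
      intro τ hτ
      have h1 : 0 < r ^ 2 - τ ^ 2 := by nlinarith [hτ.1, hτ.2]
      have := Real.sqrt_pos.mpr h1
      positivity
  have hderiv : ∀ τ ∈ Ioo 0 σ, HasDerivAt F (gg (r ^ 2 - τ ^ 2)) τ := by
    intro τ hτ
    have hτ0 : 0 < τ := hτ.1
    have hτq : τ < q := lt_of_lt_of_le hτ.2 hσ
    have hm2 : 0 < q ^ 2 - τ ^ 2 := by nlinarith
    have hh2 : 0 < r ^ 2 - τ ^ 2 := by nlinarith
    set m := √(q ^ 2 - τ ^ 2) with hm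
    have hmpos : 0 < m := Real.sqrt_pos.mpr hm2
    have hmsq : m ^ 2 = q ^ 2 - τ ^ 2 := Real.sq_sqrt hm2.le
    set h := √(r ^ 2 - τ ^ 2) with hh
    have hhpos : 0 < h := Real.sqrt_pos.mpr hh2
    have hhsq : h ^ 2 = r ^ 2 - τ ^ 2 := Real.sq_sqrt hh2.le
    -- first arcsin
    have d1 : HasDerivAt (fun τ : ℝ => Real.arcsin (τ / q)) (1 / m) τ := by
      have h1 : τ / q ≠ -1 := by
        have : 0 < τ / q := by positivity
        linarith
      have h2 : τ / q ≠ 1 := by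
        have : τ / q < 1 := by rw [div_lt_one hqpos]; exact hτq
        exact this.ne
      have h3 := (Real.hasDerivAt_arcsin h1 h2).comp τ ((hasDerivAt_id τ).div_const q)
      have e1 : √(1 - (τ / q) ^ 2) = m / q := by
        rw [show 1 - (τ / q) ^ 2 = (m / q) ^ 2 by
          rw [div_pow, div_pow, hmsq]; field_simp, Real.sqrt_sq (by positivity)]
      simp only [id] at h3
      rw [e1] at h3
      refine h3.congr_deriv ?_
      field_simp
    have d2 : HasDerivAt (fun τ : ℝ => Real.arcsin (τ / (q * √(r ^ 2 - τ ^ 2)))) (r / (h ^ 2 * m)) τ := by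
      have hu : (τ / (q * h)) ^ 2 = 1 - (r * m / (q * h)) ^ 2 := by
        rw [div_pow, div_pow, mul_pow, mul_pow, hmsq, hhsq]
        field_simp
        rw [hq2]; ring
      have hrm : 0 < r * m / (q * h) := by positivity
      have hupos : 0 < τ / (q * h) := by positivity
      have h1 : τ / (q * h) ≠ -1 := by linarith
      have h2 : τ / (q * h) ≠ 1 := by
        intro h3
        rw [h3] at hu
        nlinarith
      have g1 : HasDerivAt (fun τ : ℝ => r ^ 2 - τ ^ 2) (-(2 * τ)) τ := by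
        simpa using (hasDerivAt_pow 2 τ).const_sub (r ^ 2)
      have g2 := (g1.sqrt hh2.ne').const_mul q
      have g3 := (hasDerivAt_id τ).div g2 (by rw [← hh]; positivity)
      have h3 := (Real.hasDerivAt_arcsin h1 h2).comp τ g3
      have e1 : √(1 - (τ / (q * h)) ^ 2) = r * m / (q * h) := by
        rw [hu, show 1 - (1 - (r * m / (q * h)) ^ 2) = (r * m / (q * h)) ^ 2 by ring,
          Real.sqrt_sq hrm.le]
      simp only [id] at h3
      rw [e1, ← hh] at h3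
      refine h3.congr_deriv ?_
      have e2 : 1 * (q * h) - τ * (q * (-(2 * τ) / (2 * h))) = q * r ^ 2 / h := by
        field_simp
        rw [hhsq]; ring
      rw [e2]
      field_simp
    have d3 := (d1.const_mul 2).sub (d2.const_mul (2 / r))
    refine d3.congr_deriv ?_
    have e3 : r ^ 2 - τ ^ 2 - 1 = m ^ 2 := by rw [hmsq, hq2]; ring
    have e5 : 1 ≤ r ^ 2 - τ ^ 2 := by nlinarith [sq_nonneg m]
    rw [gg_of_one_le e5, e3, Real.sqrt_sq hmpos.le, ← hhsq]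
    have e4 : h ^ 2 = 1 + m ^ 2 := by rw [hhsq, ← e3]; ring
    field_simp
    rw [e4]; ring
  unfold G
  rw [intervalIntegral.integral_eq_sub_of_hasDerivAt_of_le h0 hcont hderiv (gg_int _ _ _)]
  simp [hF]

lemma G_full {r : ℝ} (hr : 1 < r) : G (r ^ 2) r = Real.pi * (1 - 1 / r) := by
  have hq2' : 0 < r ^ 2 - 1 := by nlinarith
  have hqpos : 0 < √(r ^ 2 - 1) := Real.sqrt_pos.mpr hq2'
  have hq2 : √(r ^ 2 - 1) ^ 2 = r ^ 2 - 1 := Real.sq_sqrt hq2'.le
  have hle : √(r ^ 2 - 1) ≤ r := by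
    rw [Real.sqrt_le_left (by linarith)]; linarith
  rw [← G_const (σ := √(r ^ 2 - 1)) hqpos.le hle (by rw [hq2]), G_closed hr hqpos.le le_rfl, hq2,
    div_self hqpos.ne', show r ^ 2 - (r ^ 2 - 1) = 1 by ring, Real.sqrt_one, mul_one,
    div_self hqpos.ne', Real.arcsin_one]
  field_simp

lemma G_small {r : ℝ} (h0 : 0 ≤ r) (hr : r ≤ 1) : G (r ^ 2) r = 0 := by
  unfold G
  have : ∫ x in (0:ℝ)..r, gg (r ^ 2 - x ^ 2) = ∫ x in (0:ℝ)..r, (0:ℝ) := by
    apply intervalIntegral.integral_congr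
    intro x _
    simp only
    apply gg_of_le_one
    nlinarith [sq_nonneg x]
  rw [this]; simp

lemma G_le_pi (r : ℝ) (h0 : 0 ≤ r) : G (r ^ 2) r ≤ Real.pi := by
  rcases le_or_gt r 1 with h | h
  · rw [G_small h0 h]; exact Real.pi_pos.le
  · rw [G_full h]
    have : 0 < 1 / r := by positivity
    nlinarith [Real.pi_pos]

lemma G_mid {r s : ℝ} (hs : 0 ≤ s) (hr0 : 0 < r) (hr : r ^ 2 = s ^ 2 + 2) :
    G (r ^ 2) s = 2 * Real.arctan s - 2 / r * Real.arctan (s / r) := by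
  have hr1 : 1 < r := by nlinarith
  have e1 : r ^ 2 - 1 = 1 + s ^ 2 := by rw [hr]; ring
  rw [G_closed hr1 hs (by
    apply Real.le_sqrt_of_sq_le; rw [e1]; linarith), e1, Real.arctan_eq_arcsin s,
    Real.arctan_eq_arcsin (s / r)]
  have e2 : s / (√(1 + s ^ 2) * √(r ^ 2 - s ^ 2)) = s / r / √(1 + (s / r) ^ 2) := by
    rw [← Real.sqrt_mul (by positivity), show r ^ 2 - s ^ 2 = 2 by rw [hr]; ring, div_div]
    congr 1
    rw [show (1 + s ^ 2) * 2 = r ^ 2 * (1 + (s / r) ^ 2) by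
      have : r ^ 2 * (1 + (s / r) ^ 2) = r ^ 2 + s ^ 2 := by field_simp
      rw [this, hr]; ring, Real.sqrt_mul (by positivity), Real.sqrt_sq hr0.le]
  rw [e2]

lemma Phi_two {r s : ℝ} (hs : 0 ≤ s) (hr0 : 0 < r) (hr : r ^ 2 = s ^ 2 + 2) :
    Phi 2 (r ^ 2) = s - G (r ^ 2) s := by
  have h1 : Psi 2 (2 + s ^ 2) s = Phi 2 (2 + s ^ 2) := Psi_eq_Phi le_rfl (by norm_num) le_rfl hs
  have h2 : r ^ 2 = 2 + s ^ 2 := by rw [hr]; ring
  rw [h2, ← h1]
  unfold Psi G
  have : ∫ x in (0:ℝ)..s, kk 2 (2 + s ^ 2 - x ^ 2) =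
      ∫ x in (0:ℝ)..s, (1 - gg (2 + s ^ 2 - x ^ 2)) := by
    apply intervalIntegral.integral_congr
    intro x hx
    rw [uIcc_of_le hs] at hx
    simp only [kk]
    rw [gg_two, div_one, max_eq_left (by nlinarith [hx.1, hx.2])]
  rw [this, intervalIntegral.integral_sub intervalIntegrable_const (gg_int _ _ _)]
  simp

/-- The function of one variable to be minimised. -/
def yy (s : ℝ) : ℝ := Real.pi + s - 2 * Real.arctan s +
  (Real.pi + 2 * Real.arctan (s / √(s ^ 2 + 2))) / √(s ^ 2 + 2)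

def bb (s : ℝ) : ℝ := s * √(s ^ 2 + 2) - Real.pi - 2 * Real.arctan (s / √(s ^ 2 + 2))

lemma sqrt_pos' (s : ℝ) : 0 < √(s ^ 2 + 2) := Real.sqrt_pos.mpr (by positivity)

lemma hasDeriv_r (s : ℝ) : HasDerivAt (fun s : ℝ => √(s ^ 2 + 2)) (s / √(s ^ 2 + 2)) s := by
  have h1 : HasDerivAt (fun s : ℝ => s ^ 2 + 2) (2 * s) s := by
    simpa using (hasDerivAt_pow 2 s).add_const 2
  have h2 := h1.sqrt (by positivity)
  refine h2.congr_deriv ?_
  field_simp

lemma hasDeriv_at (s : ℝ) :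
    HasDerivAt (fun s : ℝ => Real.arctan (s / √(s ^ 2 + 2)))
      (1 / (√(s ^ 2 + 2) * (s ^ 2 + 1))) s := by
  have hr := sqrt_pos' s
  have hr2 : √(s ^ 2 + 2) ^ 2 = s ^ 2 + 2 := Real.sq_sqrt (by positivity)
  have h1 := (hasDerivAt_id s).div (hasDeriv_r s) hr.ne'
  have h2 := h1.arctan
  refine h2.congr_deriv ?_
  simp only [id, Pi.div_apply]
  set r := √(s ^ 2 + 2)
  have hpos : 0 < r ^ 2 + s ^ 2 := by positivity
  have e1 : 1 + (s / r) ^ 2 = (r ^ 2 + s ^ 2) / r ^ 2 := by field_simp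
  rw [e1]
  field_simp
  rw [hr2]
  ring

lemma hasDeriv_yy (s : ℝ) : HasDerivAt yy (s / √(s ^ 2 + 2) ^ 3 * bb s) s := by
  have hr := sqrt_pos' s
  have hr2 : √(s ^ 2 + 2) ^ 2 = s ^ 2 + 2 := Real.sq_sqrt (by positivity)
  have h1 := ((hasDerivAt_id s).const_add Real.pi).sub ((Real.hasDerivAt_arctan s).const_mul 2)
  have h2 := (((hasDeriv_at s).const_mul 2).const_add Real.pi).div (hasDeriv_r s) hr.ne'
  have h3 := h1.add h2
  refine h3.congr_deriv ?_
  unfold bb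
  set r := √(s ^ 2 + 2)
  set A := Real.arctan (s / r)
  have hs1 : s ^ 2 = r ^ 2 - 2 := by rw [hr2]; ring
  have hr21 : 1 + s ^ 2 = r ^ 2 - 1 := by rw [hs1]; ring
  have hr22 : s ^ 2 + 1 = r ^ 2 - 1 := by rw [hs1]; ring
  have hpos : 0 < r ^ 2 - 1 := by rw [← hr21]; positivity
  rw [hr21, hr22]
  field_simp
  ring_nf
  rw [hs1]
  ring

end

end Pool.Agent.MP_b23666_gt
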