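import Pool.Agent.Lib.MP_b23666_gt.Cross
import Pool.Agent.Lib.MP_b23666_gt.Chain

set_option autoImplicit false

open MeasureTheory Set
open scoped RealInnerProductSpace

namespace Pool.Agent.MP_b23666_gt

noncomputable section

/-- Length of the polygon `v 0, ..., v n`. -/
def len (v : ℕ → E3) (n : ℕ) : ℝ := ∑ i ∈ Finset.range n, dist (v i) (v (i + 1))

/-- The convex hull of the vertices contains the unit ball (support function form). -/
def Cover (v : ℕ → E3) (n : ℕ) : Prop := ∀ x : E3, ‖x‖ = 1 → ∃ i ≤ n, 1 ≤ ⟪v i, x⟫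

lemma len_congr {v w : ℕ → E3} {n : ℕ} (h : ∀ i ≤ n, v i = w i) : len v n = len w n := by
  unfold len
  apply Finset.sum_congr rfl
  intro i hi
  rw [Finset.mem_range] at hi
  rw [h i (by omega), h (i + 1) (by omega)]

lemma Cover_congr {v w : ℕ → E3} {n : ℕ} (h : ∀ i ≤ n, v i = w i) (hv : Cover v n) : Cover w n := by
  intro x hx
  obtain ⟨i, hi, h1⟩ := hv x hx
  exact ⟨i, hi, by rwa [← h i hi]⟩

lemma perturb (v u : E3) (h : u ≠ v) {t : ℝ} (_ht : 0 ≤ t) :
    ‖(1 + t) • v - u‖ ≤ ‖v - u‖ + t * (⟪v, v - u⟫ / ‖v - u‖) + t ^ 2 * (‖v‖ ^ 2 / (2 * ‖v - u‖)) := by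
  have hA : 0 < ‖v - u‖ := norm_pos_iff.mpr (sub_ne_zero.mpr h.symm)
  set A := ‖v - u‖ with hAdef
  have e1 : (1 + t) • v - u = (v - u) + t • v := by
    rw [add_smul, one_smul]; abel
  have e2 : ‖(1 + t) • v - u‖ ^ 2 = A ^ 2 + (2 * t * ⟪v, v - u⟫ + t ^ 2 * ‖v‖ ^ 2) := by
    rw [e1, norm_add_sq_real, real_inner_smul_right, norm_smul, Real.norm_eq_abs, mul_pow, sq_abs,
      real_inner_comm]
    ring
  set z := 2 * t * ⟪v, v - u⟫ + t ^ 2 * ‖v‖ ^ 2 with hz
  have hz1 : 0 ≤ A ^ 2 + z := by rw [← e2]; positivity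
  have e3 : A + t * (⟪v, v - u⟫ / A) + t ^ 2 * (‖v‖ ^ 2 / (2 * A)) = A + z / (2 * A) := by
    rw [hz]; field_simp; ring
  rw [e3]
  have h4 : 0 ≤ A + z / (2 * A) := by
    have : A + z / (2 * A) = (A ^ 2 + (A ^ 2 + z)) / (2 * A) := by field_simp; ring
    rw [this]; positivity
  apply le_of_sq_le_sq _ h4
  rw [e2]
  have : (A + z / (2 * A)) ^ 2 = A ^ 2 + z + (z / (2 * A)) ^ 2 := by field_simp; ring
  rw [this]
  nlinarith [sq_nonneg (z / (2 * A))]

lemma limit_nonneg {X K : ℝ} (h : ∀ t : ℝ, 0 < t → 0 ≤ t * X + t ^ 2 * K) : 0 ≤ X := by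
  by_contra hX
  rw [not_le] at hX
  have h1 : 0 < |K| + 1 := by positivity
  have h2 : 0 < -X / (2 * (|K| + 1)) := by
    apply div_pos (by linarith) (by positivity)
  have h3 := h _ h2
  set t := -X / (2 * (|K| + 1)) with ht
  have h4 : t * (|K| + 1) = -X / 2 := by rw [ht]; field_simp
  have h5 : 0 ≤ t * (X + t * K) := by nlinarith
  have h6 : 0 ≤ X + t * K := by
    by_contra h7
    rw [not_le] at h7
    nlinarith
  have h8 : t * K ≤ t * (|K| + 1) := by
    apply mul_le_mul_of_nonneg_left _ h2.le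
    linarith [le_abs_self K]
  linarith

/-- Moving a vertex outwards keeps the covering property. -/
lemma Cover.update {v : ℕ → E3} {n : ℕ} (hv : Cover v n) (k : ℕ) {t : ℝ} (ht : 0 ≤ t) :
    Cover (Function.update v k ((1 + t) • v k)) n := by
  intro x hx
  obtain ⟨i, hi, h1⟩ := hv x hx
  refine ⟨i, hi, ?_⟩
  by_cases hik : i = k
  · subst hik
    rw [Function.update_self, real_inner_smul_left]
    nlinarith
  · rw [Function.update_of_ne hik]; exact h1

lemma sum_change {f g : ℕ → ℝ} {n k : ℕ} (hk : k + 1 < n)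
    (h : ∀ j < n, j ≠ k → j ≠ k + 1 → f j = g j) :
    ∑ j ∈ Finset.range n, f j - ∑ j ∈ Finset.range n, g j =
      (f k - g k) + (f (k + 1) - g (k + 1)) := by
  rw [← Finset.sum_sub_distrib]
  rw [← Finset.add_sum_erase _ _ (Finset.mem_range.mpr (show k < n by omega)),
    ← Finset.add_sum_erase _ _ (Finset.mem_erase.mpr ⟨by omega, Finset.mem_range.mpr hk⟩)]
  have : ∑ x ∈ ((Finset.range n).erase k).erase (k + 1), (f x - g x) = 0 := by
    apply Finset.sum_eq_zero
    intro j hj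
    rw [Finset.mem_erase, Finset.mem_erase, Finset.mem_range] at hj
    rw [h j hj.2.2 hj.2.1 hj.1, sub_self]
  rw [this]; ring

lemma sum_change1 {f g : ℕ → ℝ} {n k : ℕ} (hk : k < n)
    (h : ∀ j < n, j ≠ k → f j = g j) :
    ∑ j ∈ Finset.range n, f j - ∑ j ∈ Finset.range n, g j = f k - g k := by
  rw [← Finset.sum_sub_distrib, ← Finset.add_sum_erase _ _ (Finset.mem_range.mpr hk)]
  have : ∑ x ∈ (Finset.range n).erase k, (f x - g x) = 0 := by
    apply Finset.sum_eq_zero
    intro j hj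
    rw [Finset.mem_erase, Finset.mem_range] at hj
    rw [h j hj.2 hj.1, sub_self]
  rw [this]; ring

lemma inner_dir_right {v : ℕ → E3} {i : ℕ} :
    ⟪v (i + 1), v (i + 1) - v i⟫ / ‖v (i + 1) - v i‖ = ⟪dir v i, v (i + 1)⟫ := by
  unfold dir
  rw [real_inner_smul_left, real_inner_comm]
  ring

lemma inner_dir_left {v : ℕ → E3} {i : ℕ} :
    ⟪v i, v i - v (i + 1)⟫ / ‖v i - v (i + 1)‖ = - ⟪dir v i, v i⟫ := by
  unfold dir
  rw [real_inner_smul_left, real_inner_comm, ← neg_sub (v (i + 1)) (v i), inner_neg_left, norm_neg]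
  ring

/-- A polygon of minimal length among covering polygons with the same number of vertices. -/
structure Minimal (v : ℕ → E3) (n : ℕ) : Prop where
  cover : Cover v n
  min : ∀ w, Cover w n → len v n ≤ len w n
  ne : ∀ i < n, v i ≠ v (i + 1)

lemma Minimal.start {v : ℕ → E3} {n : ℕ} (h : Minimal v n) (hn : 0 < n) :
    ⟪dir v 0, v 0⟫ ≤ 0 := by
  have key : ∀ t : ℝ, 0 < t → 0 ≤ t * (-⟪dir v 0, v 0⟫) + t ^ 2 * (‖v 0‖ ^ 2 / (2 * ‖v 0 - v 1‖)) := by
    intro t ht
    have h1 := h.min _ (h.cover.update 0 ht.le)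
    have h2 := sum_change1 (f := fun i => dist (Function.update v 0 ((1 + t) • v 0) i)
      (Function.update v 0 ((1 + t) • v 0) (i + 1))) (g := fun i => dist (v i) (v (i + 1))) hn
      (by
        intro j _ hj
        rw [Function.update_of_ne hj, Function.update_of_ne (by omega)])
    unfold len at h1
    have h3 : 0 ≤ dist ((1 + t) • v 0) (v 1) - dist (v 0) (v 1) := by
      simp only [Function.update_self, Function.update_of_ne (show (0 + 1 : ℕ) ≠ 0 by omega)] at h2
      rw [zero_add] at h2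
      linarith
    have h4 := perturb (v 0) (v 1) (h.ne 0 hn).symm ht.le
    rw [dist_eq_norm, dist_eq_norm] at h3
    have h5 := inner_dir_left (v := v) (i := 0)
    rw [zero_add] at h5
    rw [h5] at h4
    linarith
  have := limit_nonneg key
  linarith

lemma Minimal.stop {v : ℕ → E3} {n : ℕ} (h : Minimal v (n + 1)) :
    0 ≤ ⟪dir v n, v (n + 1)⟫ := by
  have key : ∀ t : ℝ, 0 < t → 0 ≤ t * ⟪dir v n, v (n + 1)⟫ +
      t ^ 2 * (‖v (n + 1)‖ ^ 2 / (2 * ‖v (n + 1) - v n‖)) := by
    intro t ht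
    have h1 := h.min _ (h.cover.update (n + 1) ht.le)
    have h2 := sum_change1 (f := fun i => dist (Function.update v (n + 1) ((1 + t) • v (n + 1)) i)
      (Function.update v (n + 1) ((1 + t) • v (n + 1)) (i + 1)))
      (g := fun i => dist (v i) (v (i + 1))) (show n < n + 1 by omega)
      (by
        intro j hj1 hj
        rw [Function.update_of_ne (by omega), Function.update_of_ne (by omega)])
    unfold len at h1
    have h3 : 0 ≤ dist (v n) ((1 + t) • v (n + 1)) - dist (v n) (v (n + 1)) := by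
      simp only [Function.update_self, Function.update_of_ne (show n ≠ n + 1 by omega)] at h2
      linarith
    have h4 := perturb (v (n + 1)) (v n) (h.ne n (by omega)) ht.le
    rw [dist_comm, dist_comm (v n), dist_eq_norm, dist_eq_norm] at h3
    rw [inner_dir_right] at h4
    linarith
  exact limit_nonneg key

lemma Minimal.conv {v : ℕ → E3} {n : ℕ} (h : Minimal v n) {i : ℕ} (hi : i + 1 < n) :
    ⟪dir v (i + 1), v (i + 1)⟫ ≤ ⟪dir v i, v (i + 1)⟫ := by
  have key : ∀ t : ℝ, 0 < t → 0 ≤ t * (⟪dir v i, v (i + 1)⟫ - ⟪dir v (i + 1), v (i + 1)⟫) +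
      t ^ 2 * (‖v (i + 1)‖ ^ 2 / (2 * ‖v (i + 1) - v i‖) +
        ‖v (i + 1)‖ ^ 2 / (2 * ‖v (i + 1) - v (i + 1 + 1)‖)) := by
    intro t ht
    have h1 := h.min _ (h.cover.update (i + 1) ht.le)
    have h2 := sum_change (f := fun j => dist (Function.update v (i + 1) ((1 + t) • v (i + 1)) j)
      (Function.update v (i + 1) ((1 + t) • v (i + 1)) (j + 1)))
      (g := fun j => dist (v j) (v (j + 1))) hi
      (by
        intro j _ hj1 hj2
        rw [Function.update_of_ne hj2, Function.update_of_ne (by omega)])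
    unfold len at h1
    have h3 : 0 ≤ (dist (v i) ((1 + t) • v (i + 1)) - dist (v i) (v (i + 1))) +
        (dist ((1 + t) • v (i + 1)) (v (i + 1 + 1)) - dist (v (i + 1)) (v (i + 1 + 1))) := by
      simp only [Function.update_self, Function.update_of_ne (show i ≠ i + 1 by omega),
        Function.update_of_ne (show i + 1 + 1 ≠ i + 1 by omega)] at h2
      linarith
    have h4 := perturb (v (i + 1)) (v i) (h.ne i (by omega)) ht.le
    have h5 := perturb (v (i + 1)) (v (i + 1 + 1)) (h.ne (i + 1) hi).symm ht.le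
    rw [dist_comm (v i), dist_comm (v i), dist_eq_norm, dist_eq_norm, dist_eq_norm,
      dist_eq_norm] at h3
    rw [inner_dir_right] at h4
    rw [inner_dir_left] at h5
    linarith
  have := limit_nonneg key
  linarith

lemma inner_dir_diff {v : ℕ → E3} {i : ℕ} (h : v i ≠ v (i + 1)) :
    ⟪dir v i, v (i + 1)⟫ - ⟪dir v i, v i⟫ = dist (v i) (v (i + 1)) := by
  have hA : 0 < ‖v (i + 1) - v i‖ := norm_pos_iff.mpr (sub_ne_zero.mpr h.symm)
  rw [← inner_sub_right]
  unfold dir
  rw [real_inner_smul_left, real_inner_self_eq_norm_sq, dist_comm, dist_eq_norm]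
  field_simp

lemma Minimal.chain {v : ℕ → E3} {n : ℕ} (h : Minimal v n) (hn : 0 < n) :
    Chain n (fun i => ‖v i‖ ^ 2) (fun i => ⟪dir v i, v i⟫) (fun i => ⟪dir v i, v (i + 1)⟫) where
  npos := hn
  le := by
    intro i hi
    have := inner_dir_diff (h.ne i hi)
    have := dist_nonneg (x := v i) (y := v (i + 1))
    linarith
  nonneg := by
    intro i hi
    have := inner_T_le (x := v i) (dir_norm (h.ne i hi))
    nlinarith [sq_abs ⟪dir v i, v i⟫, abs_nonneg ⟪dir v i, v i⟫]
  same := by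
    intro i hi
    have h1 := dir_eq (h.ne i hi)
    have h2 := dir_norm (h.ne i hi)
    set d := ‖v (i + 1) - v i‖
    set T := dir v i
    rw [← h1, norm_add_sq_real, inner_add_right, real_inner_smul_right, real_inner_smul_right,
      real_inner_self_eq_norm_sq, h2, norm_smul, h2, real_inner_comm]
    rw [mul_one, Real.norm_eq_abs, sq_abs]
    ring
  start := h.start hn
  stop := by
    obtain ⟨m, rfl⟩ : ∃ m, n = m + 1 := ⟨n - 1, by omega⟩
    simpa using h.stop
  conv := fun i hi => h.conv hi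

theorem Minimal.bound {v : ℕ → E3} {n : ℕ} (h : Minimal v n) (hn : 0 < n)
    (hpi : ∀ r : ℝ, 0 ≤ r → G (r ^ 2) r ≤ Real.pi) :
    YY (‖v 0‖ ^ 2) + YY (‖v n‖ ^ 2) ≤ len v n := by
  have h1 := (h.chain hn).main ?_ ?_ ?_
  · refine h1.trans (le_of_eq ?_)
    unfold len
    apply Finset.sum_congr rfl
    intro i hi
    exact inner_dir_diff (h.ne i (Finset.mem_range.mp hi))
  · rw [Real.sqrt_sq (norm_nonneg _)]
    exact hpi _ (norm_nonneg _)
  · rw [Real.sqrt_sq (norm_nonneg _)]
    exact hpi _ (norm_nonneg _)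
  · rw [Real.sqrt_sq (norm_nonneg _), Real.sqrt_sq (norm_nonneg _)]
    exact crossing v h.ne h.cover

end

end Pool.Agent.MP_b23666_gt
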