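import Pool.Agent.Lib.MP_b23666_gt.Cap

set_option autoImplicit false

open MeasureTheory Set
open scoped RealInnerProductSpace

namespace Pool.Agent.MP_b23666_gt

noncomputable section

/-- Euclidean three-space. -/
abbrev E3 : Type := EuclideanSpace ℝ (Fin 3)

/-- The part of the open unit ball over the half of the cap of `x` on the positive side of `T`. -/
def capPart (x T : E3) : Set E3 := {p | ‖p‖ < 1 ∧ ‖p‖ ≤ ⟪x, p⟫ ∧ 0 < ⟪T, p⟫}

/-- The part of the open unit ball over the cap of `x`. -/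
def cap (x : E3) : Set E3 := {p | ‖p‖ < 1 ∧ ‖p‖ ≤ ⟪x, p⟫}

lemma cap_measurable (x : E3) : MeasurableSet (cap x) := by
  have h1 : MeasurableSet {p : E3 | ‖p‖ < 1} := measurableSet_lt (by fun_prop) (by fun_prop)
  have h2 : MeasurableSet {p : E3 | ‖p‖ ≤ ⟪x, p⟫} := measurableSet_le (by fun_prop) (by fun_prop)
  exact h1.inter h2

lemma capPart_measurable (x T : E3) : MeasurableSet (capPart x T) := by
  have h1 : MeasurableSet {p : E3 | ‖p‖ < 1} := measurableSet_lt (by fun_prop) (by fun_prop)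
  have h2 : MeasurableSet {p : E3 | ‖p‖ ≤ ⟪x, p⟫} := measurableSet_le (by fun_prop) (by fun_prop)
  have h3 : MeasurableSet {p : E3 | 0 < ⟪T, p⟫} := measurableSet_lt (by fun_prop) (by fun_prop)
  exact h1.inter (h2.inter h3)

def toProd (b : OrthonormalBasis (Fin 3) ℝ E3) (p : E3) : ℝ × (ℝ × ℝ) :=
  (⟪b 0, p⟫, (⟪b 1, p⟫, ⟪b 2, p⟫))

lemma toProd_preserving (b : OrthonormalBasis (Fin 3) ℝ E3) :
    MeasurePreserving (toProd b) volume volume := by
  have m1 := b.measurePreserving_repr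
  have m2 := EuclideanSpace.volume_preserving_symm_measurableEquiv_toLp (Fin 3)
  have m3 := volume_preserving_piFinSuccAbove (fun _ : Fin 3 => ℝ) 0
  have m4 := (MeasurePreserving.id (volume : Measure ℝ)).prod (volume_preserving_finTwoArrow ℝ)
  have m5 := m4.comp (m3.comp (m2.comp m1))
  have e : toProd b = Prod.map id MeasurableEquiv.finTwoArrow ∘
      (MeasurableEquiv.piFinSuccAbove (fun _ : Fin 3 => ℝ) 0) ∘
      (MeasurableEquiv.toLp 2 (Fin 3 → ℝ)).symm ∘ b.repr := by
    funext p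
    simp only [toProd, Function.comp, Prod.map]
    ext
    · simp [MeasurableEquiv.piFinSuccAbove, OrthonormalBasis.repr_apply_apply]
    · simp [MeasurableEquiv.piFinSuccAbove, MeasurableEquiv.finTwoArrow]
      exact (b.repr_apply_apply p 1).symm
    · simp [MeasurableEquiv.piFinSuccAbove, MeasurableEquiv.finTwoArrow]
      exact (b.repr_apply_apply p 2).symm
  rw [e]
  exact m5

/-- Volume of half caps. -/
theorem capPart_volume (x T : E3) (hT : ‖T‖ = 1) :
    volume (capPart x T) = ENNReal.ofReal (1 / 3 * (G (‖x‖ ^ 2) ‖x‖ + G (‖x‖ ^ 2) ⟪T, x⟫)) := by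
  by_cases hx : x = 0
  · subst hx
    have h1 : capPart 0 T = ∅ := by
      rw [eq_empty_iff_forall_notMem]
      rintro p ⟨_, h2, h3⟩
      rw [inner_zero_left] at h2
      have h4 : p = 0 := norm_le_zero_iff.mp h2
      rw [h4, inner_zero_right] at h3
      exact lt_irrefl _ h3
    rw [h1]
    simp [G]
  have hr : 0 < ‖x‖ := norm_pos_iff.mpr hx
  set b := InnerProductSpace.gramSchmidtOrthonormalBasis (𝕜 := ℝ) (E := E3) (ι := Fin 3) (by simp)
    ![x, T, 0] with hb
  have b0 : b 0 = (‖x‖)⁻¹ • x := by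
    rw [hb, InnerProductSpace.gramSchmidtOrthonormalBasis_apply]
    · simp only [InnerProductSpace.gramSchmidtNormed]
      have h0 : InnerProductSpace.gramSchmidt ℝ ![x, T, 0] 0 = x := by
        rw [InnerProductSpace.gramSchmidt_def, show Finset.Iio (0 : Fin 3) = ∅ by decide]
        simp
      rw [h0]; simp
    · simp only [InnerProductSpace.gramSchmidtNormed]
      have h0 : InnerProductSpace.gramSchmidt ℝ ![x, T, 0] 0 = x := by
        rw [InnerProductSpace.gramSchmidt_def, show Finset.Iio (0 : Fin 3) = ∅ by decide]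
        simp
      rw [h0]
      simp [hx]
  have b2T : ⟪b 2, T⟫ = 0 := by
    have := InnerProductSpace.gramSchmidtOrthonormalBasis_inv_triangular (𝕜 := ℝ) (E := E3)
      (ι := Fin 3) (by simp) ![x, T, 0] (i := 1) (j := 2) (by decide)
    simpa [hb] using this
  have hx0 : x = ‖x‖ • b 0 := by rw [b0, smul_smul, mul_inv_cancel₀ hr.ne', one_smul]
  set T0 := ⟪b 0, T⟫ with hT0
  set T1 := ⟪b 1, T⟫ with hT1
  have hTT : T0 ^ 2 + T1 ^ 2 = 1 := by
    have h1 := b.sum_inner_mul_inner T T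
    rw [Fin.sum_univ_three, real_inner_self_eq_norm_sq, hT] at h1
    rw [real_inner_comm (b 0) T, real_inner_comm (b 1) T, real_inner_comm (b 2) T, b2T] at h1
    rw [← hT0, ← hT1] at h1
    nlinarith
  have e : capPart x T = toProd b ⁻¹' coneSet ‖x‖ T0 T1 := by
    ext p
    have hp : ⟪b 0, p⟫ ^ 2 + ⟪b 1, p⟫ ^ 2 + ⟪b 2, p⟫ ^ 2 = ‖p‖ ^ 2 := by
      have h1 := b.sum_inner_mul_inner p p
      rw [Fin.sum_univ_three, real_inner_self_eq_norm_sq] at h1
      rw [real_inner_comm (b 0) p, real_inner_comm (b 1) p, real_inner_comm (b 2) p] at h1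
      nlinarith
    have hxp : ⟪x, p⟫ = ‖x‖ * ⟪b 0, p⟫ := by
      conv_lhs => rw [hx0]
      rw [real_inner_smul_left]
    have hTp : ⟪T, p⟫ = T0 * ⟪b 0, p⟫ + T1 * ⟪b 1, p⟫ := by
      have h1 := b.sum_inner_mul_inner T p
      rw [Fin.sum_univ_three, real_inner_comm (b 2) T, b2T, zero_mul, add_zero,
        real_inner_comm (b 0) T, real_inner_comm (b 1) T] at h1
      rw [← h1, hT0, hT1]
    simp only [capPart, coneSet, toProd, mem_preimage, mem_ofPred_eq]
    rw [hp, hxp, hTp, Real.sqrt_sq (norm_nonneg p)]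
    have h3 : ‖p‖ ^ 2 < 1 ↔ ‖p‖ < 1 := by
      rw [sq_lt_one_iff₀ (norm_nonneg p)]
    rw [h3]
  have hTx : ⟪T, x⟫ = ‖x‖ * T0 := by
    conv_lhs => rw [hx0]
    rw [real_inner_smul_right, real_inner_comm]
  rw [e, (toProd_preserving b).measure_preimage (coneSet_measurable _ _ _).nullMeasurableSet,
    cone_volume3 hr hTT, hTx]

end

end Pool.Agent.MP_b23666_gt
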