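import Mathlib

/-!
# A finite certificate for polygons whose convex hull contains the unit ball

All data are integers; the scale is `S`.
-/

set_option autoImplicit false

open Set

namespace Pool.Agent.MP_b23666_gt.Upper

/-- Integer vectors. -/
structure V where
  x : ℤ
  y : ℤ
  z : ℤ

namespace V

def sub (a b : V) : V := ⟨a.x - b.x, a.y - b.y, a.z - b.z⟩
def dot (a b : V) : ℤ := a.x * b.x + a.y * b.y + a.z * b.z
def cross (a b : V) : V :=
  ⟨a.y * b.z - a.z * b.y, a.z * b.x - a.x * b.z, a.x * b.y - a.y * b.x⟩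

end V

open V

/-- The real vector. -/
noncomputable def E (a : V) : EuclideanSpace ℝ (Fin 3) := !₂[(a.x : ℝ), (a.y : ℝ), (a.z : ℝ)]

theorem E_zero (a : V) : E a 0 = a.x := rfl
theorem E_one (a : V) : E a 1 = a.y := rfl
theorem E_two (a : V) : E a 2 = a.z := rfl

theorem inner_eq (a : V) (u : EuclideanSpace ℝ (Fin 3)) :
    inner ℝ (E a) u = a.x * u 0 + a.y * u 1 + a.z * u 2 := by
  rw [PiLp.inner_apply, Fin.sum_univ_three, E_zero, E_one, E_two]
  simp only [RCLike.inner_apply, conj_trivial]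
  ring

theorem inner_EE (a b : V) : inner ℝ (E a) (E b) = (dot a b : ℝ) := by
  rw [inner_eq, E_zero, E_one, E_two]
  unfold dot
  push_cast
  ring

theorem E_sub (a b : V) : E (sub a b) = E a - E b := by
  ext i
  fin_cases i <;> simp [E, sub]

theorem normsq_E (a : V) : ‖E a‖ ^ 2 = (dot a a : ℝ) := by
  rw [← real_inner_self_eq_norm_sq, inner_EE]

/-- The plane through `p` with normal `n` has distance at least `S` from the origin. -/
def good (S : ℤ) (p n : V) : Bool :=
  decide (0 < dot n p) && decide (S * S * dot n n ≤ dot n p * dot n p)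

theorem good_spec {S : ℤ} (hS : 0 ≤ S) {p n : V} (h : good S p n = true) :
    0 < inner ℝ (E n) (E p) ∧ (S : ℝ) * ‖E n‖ ≤ inner ℝ (E n) (E p) := by
  unfold good at h
  rw [Bool.and_eq_true, decide_eq_true_eq, decide_eq_true_eq] at h
  obtain ⟨h1, h2⟩ := h
  rw [inner_EE]
  have h1' : (0 : ℝ) < (dot n p : ℝ) := by exact_mod_cast h1
  refine ⟨h1', ?_⟩
  have h2' : (S : ℝ) * S * (dot n n : ℝ) ≤ (dot n p : ℝ) * dot n p := by exact_mod_cast h2
  rw [← normsq_E] at h2'
  have hS' : (0 : ℝ) ≤ S := by exact_mod_cast hS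
  refine le_of_sq_le_sq ?_ h1'.le
  rw [mul_pow]
  nlinarith [h2']

theorem inner_cross_smul (a b c : V) (u : EuclideanSpace ℝ (Fin 3)) :
    inner ℝ (E (cross (cross a b) (cross b c))) u = (dot (cross a b) c : ℝ) * inner ℝ (E b) u := by
  rw [inner_eq, inner_eq]
  unfold dot cross
  push_cast
  ring

theorem cramer (n1 n2 n3 : V) (u : EuclideanSpace ℝ (Fin 3)) :
    (dot (cross n1 n2) n3 : ℝ) • u = (inner ℝ (E (cross n2 n3)) u) • E n1
      + (inner ℝ (E (cross n3 n1)) u) • E n2 + (inner ℝ (E (cross n1 n2)) u) • E n3 := by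
  simp only [inner_eq]
  ext i
  fin_cases i
  · simp only [PiLp.smul_apply, PiLp.add_apply, smul_eq_mul, Fin.zero_eta, E_zero]
    unfold dot cross
    push_cast
    ring
  · simp only [PiLp.smul_apply, PiLp.add_apply, smul_eq_mul, Fin.mk_one, E_one]
    unfold dot cross
    push_cast
    ring
  · simp only [PiLp.smul_apply, PiLp.add_apply, smul_eq_mul, Fin.reduceFinMk, E_two]
    unfold dot cross
    push_cast
    ring

/-- A vector in the cone of three good normals. -/
theorem tri {S : ℤ} (hS : 0 ≤ S) {p n1 n2 n3 : V} (g1 : good S p n1 = true)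
    (g2 : good S p n2 = true) (g3 : good S p n3 = true) {u : EuclideanSpace ℝ (Fin 3)}
    (h1 : 0 ≤ inner ℝ (E (cross n2 n3)) u) (h2 : 0 ≤ inner ℝ (E (cross n3 n1)) u)
    (h3 : 0 ≤ inner ℝ (E (cross n1 n2)) u) (hD : 0 < dot (cross n1 n2) n3) :
    (S : ℝ) * ‖u‖ ≤ inner ℝ (E p) u := by
  have e := cramer n1 n2 n3 u
  generalize inner ℝ (E (cross n2 n3)) u = α at *
  generalize inner ℝ (E (cross n3 n1)) u = β at *
  generalize inner ℝ (E (cross n1 n2)) u = γ at *
  have hD' : (0 : ℝ) < (dot (cross n1 n2) n3 : ℝ) := by exact_mod_cast hD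
  generalize (dot (cross n1 n2) n3 : ℝ) = D at *
  have hS' : (0 : ℝ) ≤ S := by exact_mod_cast hS
  have k1 := (good_spec hS g1).2
  have k2 := (good_spec hS g2).2
  have k3 := (good_spec hS g3).2
  have hn : D * ‖u‖ ≤ α * ‖E n1‖ + β * ‖E n2‖ + γ * ‖E n3‖ := by
    have : D * ‖u‖ = ‖D • u‖ := by rw [norm_smul, Real.norm_of_nonneg hD'.le]
    rw [this, e]
    refine (norm_add₃_le).trans ?_
    rw [norm_smul, norm_smul, norm_smul, Real.norm_of_nonneg h1, Real.norm_of_nonneg h2,
      Real.norm_of_nonneg h3]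
  have hi : D * inner ℝ (E p) u = α * inner ℝ (E n1) (E p) + β * inner ℝ (E n2) (E p)
      + γ * inner ℝ (E n3) (E p) := by
    have : D * inner ℝ (E p) u = inner ℝ (E p) (D • u) := by rw [real_inner_smul_right]
    rw [this, e, inner_add_right, inner_add_right, real_inner_smul_right, real_inner_smul_right,
      real_inner_smul_right, real_inner_comm (E n1), real_inner_comm (E n2),
      real_inner_comm (E n3)]
  have : D * (S * ‖u‖) ≤ D * inner ℝ (E p) u := by
    rw [hi]
    calc D * (S * ‖u‖) = S * (D * ‖u‖) := by ring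
      _ ≤ S * (α * ‖E n1‖ + β * ‖E n2‖ + γ * ‖E n3‖) := mul_le_mul_of_nonneg_left hn hS'
      _ = α * (S * ‖E n1‖) + β * (S * ‖E n2‖) + γ * (S * ‖E n3‖) := by ring
      _ ≤ _ := by gcongr
  exact le_of_mul_le_mul_left this hD'

/-- The fan of normals from `n1 = e1 × e2`. -/
def fan (S : ℤ) (p n1 e1 e2 : V) : V → V → List V → Bool
  | a, b, [] => decide (dot (cross a b) e1 < 0) && decide (dot n1 b < 0) &&
      good S p (cross b e1) && decide (dot (cross b e1) e2 < 0)
  | a, b, c :: r => decide (dot (cross a b) c < 0) && decide (dot n1 b < 0) &&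
      good S p (cross b c) && fan S p n1 e1 e2 b c r

theorem det_pos {a b c n1 : V} (h1 : dot (cross a b) c < 0) (h2 : dot n1 b < 0) :
    0 < dot (cross n1 (cross a b)) (cross b c) := by
  have : dot (cross n1 (cross a b)) (cross b c) = dot (cross a b) c * dot n1 b := by
    unfold dot cross
    ring
  rw [this]
  exact mul_pos_of_neg_of_neg h1 h2

theorem inner_anti (a b : V) (u : EuclideanSpace ℝ (Fin 3)) :
    inner ℝ (E (cross a b)) u = - inner ℝ (E (cross b a)) u := by
  rw [inner_eq, inner_eq]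
  unfold cross
  push_cast
  ring

theorem fan_spec {S : ℤ} (hS : 0 ≤ S) {p n1 e1 e2 : V} (hn1 : n1 = cross e1 e2)
    (g1 : good S p n1 = true) {u : EuclideanSpace ℝ (Fin 3)} (u1 : inner ℝ (E e1) u ≤ 0) :
    ∀ (l : List V) (a b : V), fan S p n1 e1 e2 a b l = true → good S p (cross a b) = true →
      inner ℝ (E b) u ≤ 0 → (∀ e ∈ l, inner ℝ (E e) u ≤ 0) →
      0 ≤ inner ℝ (E (cross n1 (cross a b))) u → (S : ℝ) * ‖u‖ ≤ inner ℝ (E p) u := by
  intro l
  induction l with
  | nil =>
    intro a b h g hb _ h0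
    unfold fan at h
    rw [Bool.and_eq_true, Bool.and_eq_true, Bool.and_eq_true, decide_eq_true_eq,
      decide_eq_true_eq, decide_eq_true_eq] at h
    obtain ⟨⟨⟨h1, h2⟩, h3⟩, h4⟩ := h
    refine tri hS g1 g h3 ?_ ?_ h0 (det_pos h1 h2)
    · rw [inner_cross_smul]
      exact mul_nonneg_of_nonpos_of_nonpos (by exact_mod_cast h1.le) hb
    · rw [hn1, inner_cross_smul]
      exact mul_nonneg_of_nonpos_of_nonpos (by exact_mod_cast h4.le) u1
  | cons c r ih =>
    intro a b h g hb hl h0
    unfold fan at h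
    rw [Bool.and_eq_true, Bool.and_eq_true, Bool.and_eq_true, decide_eq_true_eq,
      decide_eq_true_eq] at h
    obtain ⟨⟨⟨h1, h2⟩, h3⟩, h4⟩ := h
    by_cases h5 : 0 ≤ inner ℝ (E (cross n1 (cross b c))) u
    · exact ih b c h4 h3 (hl c List.mem_cons_self)
        (fun e he => hl e (List.mem_cons_of_mem _ he)) h5
    · push Not at h5
      refine tri hS g1 g h3 ?_ ?_ h0 (det_pos h1 h2)
      · rw [inner_cross_smul]
        exact mul_nonneg_of_nonpos_of_nonpos (by exact_mod_cast h1.le) hb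
      · rw [inner_anti]
        linarith

/-- The certificate at a vertex `p` with the edge vectors to its neighbours. -/
def star (S : ℤ) (p : V) : List V → Bool
  | e1 :: e2 :: e3 :: r => good S p (cross e1 e2) && good S p (cross e2 e3) &&
      decide (dot (cross e1 e2) e3 < 0) && fan S p (cross e1 e2) e1 e2 e2 e3 r
  | _ => false

theorem star_spec {S : ℤ} (hS : 0 ≤ S) {p : V} {es : List V} (h : star S p es = true)
    {u : EuclideanSpace ℝ (Fin 3)} (hu : ∀ e ∈ es, inner ℝ (E e) u ≤ 0) :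
    (S : ℝ) * ‖u‖ ≤ inner ℝ (E p) u := by
  match es, h, hu with
  | e1 :: e2 :: e3 :: r, h, hu =>
    unfold star at h
    rw [Bool.and_eq_true, Bool.and_eq_true, Bool.and_eq_true, decide_eq_true_eq] at h
    obtain ⟨⟨⟨h1, h2⟩, h3⟩, h4⟩ := h
    have u1 : inner ℝ (E e1) u ≤ 0 := hu e1 (by simp)
    have u2 : inner ℝ (E e2) u ≤ 0 := hu e2 (by simp)
    have u3 : inner ℝ (E e3) u ≤ 0 := hu e3 (by simp)
    refine fan_spec hS rfl h1 u1 r e2 e3 h4 h2 u3 (fun e he => hu e (by simp [he])) ?_
    rw [inner_cross_smul]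
    exact mul_nonneg_of_nonpos_of_nonpos (by exact_mod_cast h3.le) u2

/-- The first edge vector spans, with the second, a good plane. -/
theorem star_head {S : ℤ} {p e1 : V} {es : List V} (h : star S p (e1 :: es) = true) :
    ∃ e2 : V, good S p (cross e1 e2) = true := by
  match es, h with
  | e2 :: e3 :: r, h =>
    unfold star at h
    rw [Bool.and_eq_true, Bool.and_eq_true, Bool.and_eq_true, decide_eq_true_eq] at h
    exact ⟨e2, h.1.1.1⟩

theorem inner_cross_left (a b : V) : inner ℝ (E (cross a b)) (E a) = 0 := by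
  rw [inner_EE]
  have : dot (cross a b) a = 0 := by unfold dot cross; ring
  rw [this]
  simp

end Pool.Agent.MP_b23666_gt.Upper
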